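import Mathlib
import Pool.Agent.Results.MP_e7d72a_nt.Resonance

set_option autoImplicit false

open Polynomial

namespace Pool.Agent.Y379.SR

open Pool.Agent.Results.MP_e7d72a_nt.Resonance

/-- the shift of sequences -/
noncomputable def S (R : Type) [CommRing R] : Module.End R (ℕ → R) :=
  LinearMap.funLeft R R (fun n => n + 1)

lemma S_apply {R : Type} [CommRing R] (y : ℕ → R) (n : ℕ) : S R y n = y (n + 1) := rfl

lemma S_pow {R : Type} [CommRing R] (y : ℕ → R) (j n : ℕ) : (S R ^ j) y n = y (n + j) := by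
  induction j generalizing n with
  | zero => rfl
  | succ j ih =>
    rw [pow_succ', Module.End.mul_apply, S_apply, ih]
    congr 1
    omega

/-- the value of a linear recurrence operator -/
lemma app_apply {R : Type} [CommRing R] (P : R[X]) (y : ℕ → R) (n : ℕ) :
    aeval (S R) P y n = ∑ j ∈ Finset.range (P.natDegree + 1), P.coeff j * y (n + j) := by
  rw [Polynomial.aeval_eq_sum_range, LinearMap.sum_apply, Finset.sum_apply]
  refine Finset.sum_congr rfl fun j _ => ?_
  rw [LinearMap.smul_apply, Pi.smul_apply, S_pow, smul_eq_mul]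

lemma app_shift {R : Type} [CommRing R] (P : R[X]) (y : ℕ → R) (m n : ℕ) :
    aeval (S R) P y (n + m) = aeval (S R) P (fun i => y (i + m)) n := by
  rw [app_apply, app_apply]
  refine Finset.sum_congr rfl fun j _ => ?_
  congr 2
  omega

lemma app_cast (Φ : ℤ[X]) (y : ℕ → ℤ) (n : ℕ) :
    aeval (S ℝ) (Φ.map (Int.castRingHom ℝ)) (fun i => (y i : ℝ)) n = ((aeval (S ℤ) Φ y n : ℤ) : ℝ) := by
  rw [app_apply, app_apply, Polynomial.natDegree_map_eq_of_injective
    (RingHom.injective_int (Int.castRingHom ℝ))]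
  push_cast
  refine Finset.sum_congr rfl fun j _ => ?_
  rw [Polynomial.coeff_map]
  rfl

/-- trajectories of the shift radix system, as sequences -/
def Tr {d : ℕ} (r : Fin d → ℝ) (y : ℕ → ℤ) : Prop :=
  ∀ n, 0 ≤ ∑ j : Fin d, r j * (y (n + j) : ℝ) + y (n + d) ∧
    ∑ j : Fin d, r j * (y (n + j) : ℝ) + y (n + d) < 1

lemma Tr_iff_floor {d : ℕ} (r : Fin d → ℝ) (y : ℕ → ℤ) :
    Tr r y ↔ ∀ n, y (n + d) = -⌊∑ j : Fin d, r j * (y (n + j) : ℝ)⌋ := by
  refine forall_congr' fun n => ?_
  constructor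
  · rintro ⟨h1, h2⟩
    have : ⌊∑ j : Fin d, r j * (y (n + j) : ℝ)⌋ = -y (n + d) := by
      rw [Int.floor_eq_iff]
      push_cast
      constructor <;> linarith
    rw [this, neg_neg]
  · intro h
    have h1 := Int.floor_le (∑ j : Fin d, r j * (y (n + j) : ℝ))
    have h2 := Int.lt_floor_add_one (∑ j : Fin d, r j * (y (n + j) : ℝ))
    have h3 : (y (n + d) : ℝ) = -(⌊∑ j : Fin d, r j * (y (n + j) : ℝ)⌋ : ℝ) := by
      rw [h]
      push_cast
      rfl
    rw [h3]
    constructor <;> linarith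

lemma Tr_iff {d : ℕ} (r : Fin d → ℝ) (y : ℕ → ℤ) :
    Tr r y ↔ ∀ n, 0 ≤ aeval (S ℝ) (charPoly r) (fun i => (y i : ℝ)) n ∧
      aeval (S ℝ) (charPoly r) (fun i => (y i : ℝ)) n < 1 := by
  have h : ∀ n, aeval (S ℝ) (charPoly r) (fun i => (y i : ℝ)) n =
      ∑ j : Fin d, r j * (y (n + j) : ℝ) + y (n + d) := by
    intro n
    unfold charPoly
    rw [map_add, map_sum, LinearMap.add_apply, Pi.add_apply, LinearMap.sum_apply,
      Finset.sum_apply, map_pow, aeval_X, S_pow, add_comm]
    congr 1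
    refine Finset.sum_congr rfl fun j _ => ?_
    rw [map_mul, map_pow, aeval_X, aeval_C, Module.End.mul_apply, Module.algebraMap_end_apply,
      Pi.smul_apply, S_pow, smul_eq_mul]
  unfold Tr
  simp only [h]

/-- the trajectories of a product with an integer polynomial -/
lemma Tr_mul {d k : ℕ} {r : Fin d → ℝ} {s : Fin k → ℝ} {Φ : ℤ[X]}
    (h : charPoly r = Φ.map (Int.castRingHom ℝ) * charPoly s) (y : ℕ → ℤ) :
    Tr r y ↔ Tr s (aeval (S ℤ) Φ y) := by
  rw [Tr_iff, Tr_iff, h]
  have h1 : ∀ n, aeval (S ℝ) (Φ.map (Int.castRingHom ℝ) * charPoly s) (fun i => (y i : ℝ)) n =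
      aeval (S ℝ) (charPoly s) (fun i => ((aeval (S ℤ) Φ y i : ℤ) : ℝ)) n := by
    intro n
    have h2 : aeval (S ℝ) (Φ.map (Int.castRingHom ℝ)) (fun i => (y i : ℝ)) =
        fun i => ((aeval (S ℤ) Φ y i : ℤ) : ℝ) := funext (app_cast Φ y)
    rw [mul_comm, map_mul, Module.End.mul_apply, h2]
  simp only [h1]

lemma tau_iter_Tr {d : ℕ} {r : Fin d → ℝ} {y : ℕ → ℤ} (h : Tr r y) (n : ℕ) :
    (tau r)^[n] (fun i : Fin d => y i) = fun i : Fin d => y (n + i) := by
  rw [Tr_iff_floor] at h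
  induction n with
  | zero =>
    funext i
    simp
  | succ n ih =>
    rw [Function.iterate_succ_apply', ih]
    funext i
    unfold tau
    split_ifs with hi
    · show y (n + (i + 1)) = y (n + 1 + i)
      congr 1
      ring
    · have hi' : (i : ℕ) + 1 = d := by
        have := i.2
        omega
      rw [← h n]
      congr 1
      omega

lemma tau_apply_lt {d : ℕ} (r : Fin d → ℝ) (z : Fin d → ℤ) (i : ℕ) (hi : i + 1 < d) :
    tau r z ⟨i, by omega⟩ = z ⟨i + 1, hi⟩ := by
  unfold tau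
  rw [dif_pos hi]

lemma exists_Tr {d : ℕ} (hd : 0 < d) (r : Fin d → ℝ) (z : Fin d → ℤ) :
    ∃ y : ℕ → ℤ, Tr r y ∧ (fun i : Fin d => y i) = z := by
  set y : ℕ → ℤ := fun n => (tau r)^[n] z ⟨0, hd⟩ with hy
  have key : ∀ i n : ℕ, ∀ hi : i < d, (tau r)^[n] z ⟨i, hi⟩ = y (n + i) := by
    intro i
    induction i with
    | zero =>
      intro n hi
      rfl
    | succ i ih =>
      intro n hi
      have h1 := ih (n + 1) (by omega)
      have e : n + (i + 1) = n + 1 + i := by ring
      rw [e, ← h1, Function.iterate_succ_apply', tau_apply_lt _ _ i hi]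
  have hyz : ∀ n, (tau r)^[n] z = fun i : Fin d => y (n + i) := by
    intro n
    funext i
    exact key i n i.2
  refine ⟨y, ?_, ?_⟩
  · rw [Tr_iff_floor]
    intro n
    have h1 : (tau r)^[n + 1] z ⟨d - 1, by omega⟩ = y (n + 1 + (d - 1)) := key (d - 1) (n + 1) _
    have e : n + 1 + (d - 1) = n + d := by omega
    rw [e, Function.iterate_succ_apply', hyz n] at h1
    rw [← h1]
    unfold tau
    rw [dif_neg (by simp only; omega)]
  · have := hyz 0
    rw [Function.iterate_zero, id] at this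
    rw [this]
    funext i
    rw [Nat.zero_add]

/-- ultimate periodicity of a sequence -/
def UP (y : ℕ → ℤ) : Prop := ∃ n p : ℕ, 1 ≤ p ∧ ∀ j, y (n + p + j) = y (n + j)

lemma ult_iff {d : ℕ} (hd : 0 < d) {r : Fin d → ℝ} {y : ℕ → ℤ} (h : Tr r y) :
    UltPeriodic r (fun i : Fin d => y i) ↔ UP y := by
  constructor
  · rintro ⟨n, p, hp, he⟩
    refine ⟨n, p, hp, fun j => ?_⟩
    have h1 : (tau r)^[n + p + j] (fun i : Fin d => y i) = (tau r)^[n + j] (fun i : Fin d => y i) := by
      rw [add_comm (n + p) j, add_comm n j, Function.iterate_add_apply, he,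
        ← Function.iterate_add_apply]
    rw [tau_iter_Tr h, tau_iter_Tr h] at h1
    have h2 := congrFun h1 ⟨0, hd⟩
    simpa using h2
  · rintro ⟨n, p, hp, he⟩
    refine ⟨n, p, hp, ?_⟩
    rw [tau_iter_Tr h, tau_iter_Tr h]
    funext i
    exact he i

lemma mem_D_iff {d : ℕ} (r : Fin d → ℝ) :
    r ∈ D d ↔ ∀ y, Tr r y → UP y := by
  rcases Nat.eq_zero_or_pos d with hd | hd
  · subst hd
    constructor
    · intro _ y hy
      have h0 : ∀ n, y n = 0 := by
        intro n
        have h1 := hy n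
        simp only [Finset.univ_eq_empty, Finset.sum_empty, zero_add, add_zero] at h1
        have h2 : (0 : ℤ) ≤ y n := by exact_mod_cast h1.1
        have h3 : y n < (1 : ℤ) := by exact_mod_cast h1.2
        omega
      exact ⟨0, 1, le_rfl, fun j => by rw [h0, h0]⟩
    · intro _ z
      exact ⟨0, 1, le_rfl, Subsingleton.elim _ _⟩
  constructor
  · intro h y hy
    exact (ult_iff hd hy).1 (h _)
  · intro h z
    obtain ⟨y, hy, rfl⟩ := exists_Tr hd r z
    exact (ult_iff hd hy).2 (h y hy)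

/-- a monic integer recurrence can be solved -/
lemma exists_solution {Φ : ℤ[X]} (hΦ : Φ.Monic) (z : ℕ → ℤ) : ∃ y : ℕ → ℤ, aeval (S ℤ) Φ y = z := by
  set e := Φ.natDegree with he
  -- strong recursion
  let F : (n : ℕ) → ((m : ℕ) → m < n → ℤ) → ℤ := fun n f =>
    if h : e ≤ n then z (n - e) - ∑ j : Fin e, Φ.coeff j * f (n - e + j) (by
      have := j.2
      omega) else 0
  let y : ℕ → ℤ := fun n => Nat.strongRec (motive := fun _ => ℤ) F n
  have hy : ∀ n, y n = F n (fun m _ => y m) := by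
    intro n
    show Nat.strongRec (motive := fun _ => ℤ) F n = _
    rw [Nat.strongRec_eq]
  refine ⟨y, ?_⟩
  funext n
  rw [app_apply, ← he, Finset.sum_range_succ, he, hΦ.coeff_natDegree, ← he, one_mul, hy (n + e)]
  simp only [F]
  rw [dif_pos (Nat.le_add_left e n), Finset.sum_range]
  have e1 : n + e - e = n := by omega
  simp only [e1]
  ring

end Pool.Agent.Y379.SR
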