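import Mathlib
import Pool.Agent.Y379.SR.Base

set_option autoImplicit false

open Polynomial

namespace Pool.Agent.Y379.SR

open Pool.Agent.Results.MP_e7d72a_nt.Resonance

/-- the Fourier sum of a periodic sequence -/
noncomputable def F (P : ℕ) (ζ : ℂ) (z : ℕ → ℤ) : ℂ := ∑ n ∈ Finset.range P, (z n : ℂ) * ζ ^ n

lemma F_shift {P : ℕ} {ζ : ℂ} {z : ℕ → ℤ} (hz : ∀ n, z (n + P) = z n) (hζ : ζ ^ P = 1) :
    ζ * F P ζ (fun n => z (n + 1)) = F P ζ z := by
  have h1 : ζ * F P ζ (fun n => z (n + 1)) = ∑ n ∈ Finset.range P, (z (n + 1) : ℂ) * ζ ^ (n + 1) := by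
    unfold F
    rw [Finset.mul_sum]
    refine Finset.sum_congr rfl fun n _ => ?_
    ring
  have h2 := Finset.sum_range_succ' (fun n => (z n : ℂ) * ζ ^ n) P
  have h3 := Finset.sum_range_succ (fun n => (z n : ℂ) * ζ ^ n) P
  have h4 := hz 0
  rw [Nat.zero_add] at h4
  rw [h3] at h2
  rw [h1]
  unfold F
  rw [h4, hζ, pow_zero] at h2
  exact (add_right_cancel h2).symm

lemma F_shift_pow {P : ℕ} {ζ : ℂ} {z : ℕ → ℤ} (hz : ∀ n, z (n + P) = z n) (hζ : ζ ^ P = 1)
    (j : ℕ) : ζ ^ j * F P ζ (fun n => z (n + j)) = F P ζ z := by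
  induction j with
  | zero => simp
  | succ j ih =>
    have h1 : ∀ n, (fun n => z (n + j)) (n + P) = (fun n => z (n + j)) n := by
      intro n
      simp only
      rw [show n + P + j = n + j + P by ring]
      exact hz _
    have h2 := F_shift (z := fun n => z (n + j)) h1 hζ
    rw [← ih, ← h2, pow_succ, mul_assoc]
    congr 3
    funext n
    congr 1
    ring

lemma F_app {P : ℕ} {ζ η : ℂ} {z : ℕ → ℤ} (hz : ∀ n, z (n + P) = z n) (hζ : ζ ^ P = 1)
    (hη : η * ζ = 1) (Φ : ℤ[X]) :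
    F P ζ (aeval (S ℤ) Φ z) = aeval η Φ * F P ζ z := by
  have h1 : ∀ j, F P ζ (fun n => z (n + j)) = η ^ j * F P ζ z := by
    intro j
    rw [← F_shift_pow hz hζ j, ← mul_assoc, ← mul_pow, hη, one_pow, one_mul]
  rw [Polynomial.aeval_eq_sum_range (p := Φ) η, Finset.sum_mul]
  have h2 : F P ζ (aeval (S ℤ) Φ z) = ∑ n ∈ Finset.range P,
      ∑ j ∈ Finset.range (Φ.natDegree + 1), (Φ.coeff j : ℂ) * ((z (n + j) : ℂ) * ζ ^ n) := by
    unfold F
    refine Finset.sum_congr rfl fun n _ => ?_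
    rw [app_apply]
    push_cast
    rw [Finset.sum_mul]
    refine Finset.sum_congr rfl fun j _ => ?_
    ring
  rw [h2, Finset.sum_comm]
  refine Finset.sum_congr rfl fun j _ => ?_
  rw [← Finset.mul_sum]
  have h3 := h1 j
  unfold F at h3
  rw [h3]
  unfold F
  rw [zsmul_eq_mul]
  ring

lemma per_mul {z : ℕ → ℤ} {P : ℕ} (hz : ∀ n, z (n + P) = z n) (q n : ℕ) : z (n + q * P) = z n := by
  induction q with
  | zero => simp
  | succ q ih =>
    rw [show n + (q + 1) * P = n + q * P + P by ring, hz, ih]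

lemma F_mul {z : ℕ → ℤ} {P : ℕ} (hz : ∀ n, z (n + P) = z n) (ζ : ℂ) (q : ℕ) :
    F (q * P) ζ z = (∑ i ∈ Finset.range q, (ζ ^ P) ^ i) * F P ζ z := by
  induction q with
  | zero => simp [F]
  | succ q ih =>
    rw [show (q + 1) * P = q * P + P by ring]
    unfold F at ih ⊢
    rw [Finset.sum_range_add, ih, Finset.sum_range_succ, add_mul]
    congr 1
    rw [Finset.mul_sum]
    refine Finset.sum_congr rfl fun n _ => ?_
    rw [add_comm (q * P) n, per_mul hz, pow_add, mul_comm q P, pow_mul]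
    ring

/-- the Fourier obstruction to ultimate periodicity -/
lemma F_eq_zero_of_UP {y : ℕ → ℤ} (hy : UP y) {Φ : ℤ[X]} {P : ℕ}
    (hz : ∀ n, aeval (S ℤ) Φ y (n + P) = aeval (S ℤ) Φ y n) {ζ η : ℂ} (hζ : ζ ^ P = 1)
    (hη : η * ζ = 1) (hr : aeval η Φ = 0) : F P ζ (aeval (S ℤ) Φ y) = 0 := by
  obtain ⟨n0, p, hp, he⟩ := hy
  set z := aeval (S ℤ) Φ y with hzdef
  have h1 : ∀ n, (fun i => y (i + n0)) (n + p) = (fun i => y (i + n0)) n := by
    intro n
    simp only
    rw [show n + p + n0 = n0 + p + n by ring, he, add_comm]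
  have h2 : aeval (S ℤ) Φ (fun i => y (i + n0)) = fun n => z (n + n0) := by
    funext n
    rw [hzdef, app_shift]
  have h3 : ∀ n, (fun i => y (i + n0)) (n + p * P) = (fun i => y (i + n0)) n := by
    intro n
    rw [mul_comm]
    exact per_mul (z := fun i => y (i + n0)) h1 P n
  have hζ2 : ζ ^ (p * P) = 1 := by rw [mul_comm, pow_mul, hζ, one_pow]
  have h4 := F_app (z := fun i => y (i + n0)) h3 hζ2 hη Φ
  rw [hr, zero_mul, h2] at h4
  have h5 : ∀ n, (fun n => z (n + n0)) (n + P) = (fun n => z (n + n0)) n := by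
    intro n
    simp only
    rw [show n + P + n0 = n + n0 + P by ring]
    exact hz _
  rw [F_mul (z := fun n => z (n + n0)) h5, hζ] at h4
  simp only [one_pow, Finset.sum_const, Finset.card_range, nsmul_eq_mul, mul_one] at h4
  have hp' : (p : ℂ) ≠ 0 := by
    have : p ≠ 0 := by omega
    exact_mod_cast this
  have h6 := (mul_eq_zero.1 h4).resolve_left hp'
  rw [← F_shift_pow hz hζ n0, h6, mul_zero]

/-- Fourier inversion -/
lemma eq_zero_of_F {w : ℕ → ℤ} {P : ℕ} (hP : 1 ≤ P) (h : ∀ ζ : ℂ, ζ ^ P = 1 → F P ζ w = 0) :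
    ∀ n < P, w n = 0 := by
  set W : ℂ[X] := ∑ n ∈ Finset.range P, C (w n : ℂ) * X ^ n with hW
  have hdeg : W.natDegree < P := by
    refine lt_of_le_of_lt (Polynomial.natDegree_sum_le_of_forall_le (n := P - 1) _ _ ?_) (by omega)
    intro n hn
    refine (Polynomial.natDegree_C_mul_X_pow_le _ _).trans ?_
    have := Finset.mem_range.1 hn
    omega
  have hroot := Complex.isPrimitiveRoot_exp P (by omega)
  have hcard : (Polynomial.nthRootsFinset P (1 : ℂ)).card = P := hroot.card_nthRootsFinset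
  have hz : W = 0 := by
    refine Polynomial.eq_zero_of_natDegree_lt_card_of_eval_eq_zero' W
      (Polynomial.nthRootsFinset P (1 : ℂ)) ?_ (by rw [hcard]; exact hdeg)
    intro ζ hζ
    rw [Polynomial.mem_nthRootsFinset (by omega)] at hζ
    have := h ζ hζ
    unfold F at this
    rw [hW, Polynomial.eval_finsetSum]
    simpa using this
  intro n hn
  have h1 : W.coeff n = (w n : ℂ) := by
    rw [hW, Polynomial.finsetSum_coeff]
    simp only [Polynomial.coeff_C_mul_X_pow]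
    rw [Finset.sum_ite_eq, if_pos (Finset.mem_range.2 hn)]
  rw [hz, Polynomial.coeff_zero] at h1
  exact_mod_cast h1.symm

lemma period_diff {Φ Q : ℤ[X]} {P : ℕ} (h : Φ * Q = X ^ P - 1) (y : ℕ → ℤ) (n : ℕ) :
    y (n + P) - y n = aeval (S ℤ) Q (aeval (S ℤ) Φ y) n := by
  rw [← Module.End.mul_apply, ← map_mul, mul_comm, h, map_sub, map_pow, aeval_X, map_one,
    LinearMap.sub_apply, Pi.sub_apply, S_pow]
  rfl

/-- if the driving sequence has no Fourier coefficient at the roots, all solutions are periodic -/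
lemma UP_of_F {y : ℕ → ℤ} {Φ : ℤ[X]} {N : ℕ} (hN : 1 ≤ N) (hdvd : Φ ∣ X ^ N - 1)
    (hz : UP (aeval (S ℤ) Φ y))
    (hF : ∀ (n0 p : ℕ), 1 ≤ p →
      (∀ j, aeval (S ℤ) Φ y (n0 + p + j) = aeval (S ℤ) Φ y (n0 + j)) →
      ∀ η : ℂ, η ^ p = 1 → aeval η Φ = 0 →
        F p η⁻¹ (fun n => aeval (S ℤ) Φ y (n0 + n)) = 0) : UP y := by
  obtain ⟨n0, p, hp, he⟩ := hz
  have hF' := hF n0 p hp he
  set z := aeval (S ℤ) Φ y with hzdef
  have hz1 : ∀ n, (fun n => z (n0 + n)) (n + p) = (fun n => z (n0 + n)) n := by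
    intro n
    simp only
    rw [show n0 + (n + p) = n0 + p + n by ring]
    exact he n
  have h2 : aeval (S ℤ) Φ (fun i => y (i + n0)) = fun n => z (n0 + n) := by
    funext n
    rw [hzdef, add_comm n0 n, app_shift]
  have hd2 : Φ ∣ X ^ (N * p) - 1 := by
    refine hdvd.trans ?_
    have h3 := sub_dvd_pow_sub_pow ((X : ℤ[X]) ^ N) 1 p
    rw [one_pow, ← pow_mul] at h3
    exact h3
  obtain ⟨Q, hQ⟩ := hd2
  have hP : 1 ≤ N * p := Nat.mul_pos hN hp
  have hz2 : ∀ n, (fun n => z (n0 + n)) (n + N * p) = (fun n => z (n0 + n)) n :=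
    fun n => per_mul (z := fun n => z (n0 + n)) hz1 N n
  have hw : ∀ n, aeval (S ℤ) Q (fun n => z (n0 + n)) (n + N * p) =
      aeval (S ℤ) Q (fun n => z (n0 + n)) n := by
    intro n
    rw [app_shift]
    have h1 : (fun i => (fun n => z (n0 + n)) (i + N * p)) = fun n => z (n0 + n) := by
      funext i
      exact hz2 i
    rw [h1]
  have hw0 : ∀ n < N * p, aeval (S ℤ) Q (fun n => z (n0 + n)) n = 0 := by
    refine eq_zero_of_F hP fun ζ hζ => ?_
    have hζ0 : ζ ≠ 0 := by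
      rintro rfl
      rw [zero_pow (by omega)] at hζ
      exact zero_ne_one hζ
    rw [F_app (z := fun n => z (n0 + n)) hz2 hζ (inv_mul_cancel₀ hζ0)]
    by_cases hr : aeval ζ⁻¹ Φ = 0
    · have h5 : F (N * p) ζ (fun n => z (n0 + n)) = 0 := by
        rw [F_mul (z := fun n => z (n0 + n)) hz1]
        by_cases hζp : ζ ^ p = 1
        · have h6 := hF' ζ⁻¹ (by rw [inv_pow, hζp, inv_one]) hr
          rw [inv_inv] at h6
          rw [h6, mul_zero]
        · have h6 : (∑ i ∈ Finset.range N, (ζ ^ p) ^ i) * (ζ ^ p - 1) = (ζ ^ p) ^ N - 1 :=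
            geom_sum_mul _ _
          rw [← pow_mul, mul_comm p N, hζ, sub_self] at h6
          rw [(mul_eq_zero.1 h6).resolve_right (sub_ne_zero.2 hζp), zero_mul]
      rw [h5, mul_zero]
    · have h5 : aeval ζ⁻¹ Φ * aeval ζ⁻¹ Q = 0 := by
        rw [← map_mul, ← hQ, map_sub, map_pow, aeval_X, map_one, inv_pow, hζ, inv_one, sub_self]
      rw [(mul_eq_zero.1 h5).resolve_left hr, zero_mul]
  have hw1 : ∀ n, aeval (S ℤ) Q (fun n => z (n0 + n)) n = 0 := by
    intro n
    have h6 := per_mul hw (n / (N * p)) (n % (N * p))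
    rw [mul_comm (n / (N * p)), Nat.mod_add_div] at h6
    rw [h6]
    exact hw0 _ (Nat.mod_lt _ hP)
  refine ⟨n0, N * p, hP, fun j => ?_⟩
  have h7 := period_diff hQ.symm (fun i => y (i + n0)) j
  rw [h2, hw1] at h7
  rw [show n0 + N * p + j = j + N * p + n0 by ring, show n0 + j = j + n0 by ring]
  linarith

/-- `UP` passes to the image -/
lemma UP_app {y : ℕ → ℤ} (hy : UP y) (Φ : ℤ[X]) : UP (aeval (S ℤ) Φ y) := by
  obtain ⟨n0, p, hp, he⟩ := hy
  refine ⟨n0, p, hp, fun j => ?_⟩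
  have h1 : (fun i => y (i + (n0 + p))) = fun i => y (i + n0) := by
    funext i
    rw [show i + (n0 + p) = n0 + p + i by ring, he, add_comm]
  rw [show n0 + p + j = j + (n0 + p) by ring, show n0 + j = j + n0 by ring, app_shift, app_shift, h1]

lemma Tr_shift {k : ℕ} {s : Fin k → ℝ} {z : ℕ → ℤ} (h : Tr s z) (n0 : ℕ) :
    Tr s (fun n => z (n0 + n)) := by
  intro n
  have := h (n0 + n)
  simp only [← add_assoc]
  exact this

/-- the exact criterion -/
theorem mem_D_mul {d k N : ℕ} {r : Fin d → ℝ} {s : Fin k → ℝ} {Φ : ℤ[X]} (hN : 1 ≤ N)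
    (hΦ : Φ.Monic) (hdvd : Φ ∣ X ^ N - 1)
    (h : charPoly r = Φ.map (Int.castRingHom ℝ) * charPoly s) :
    r ∈ D d ↔ s ∈ D k ∧ ∀ (z : ℕ → ℤ) (p : ℕ), 1 ≤ p → (∀ n, z (n + p) = z n) → Tr s z →
      ∀ η : ℂ, η ^ p = 1 → aeval η Φ = 0 → F p η⁻¹ z = 0 := by
  rw [mem_D_iff, mem_D_iff]
  constructor
  · intro H
    constructor
    · intro z hz
      obtain ⟨y, rfl⟩ := exists_solution hΦ z
      exact UP_app (H y ((Tr_mul h y).2 hz)) Φ
    · intro z p hp hper hz η hη hr
      obtain ⟨y, rfl⟩ := exists_solution hΦ z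
      have hη0 : η ≠ 0 := by
        rintro rfl
        rw [zero_pow (by omega)] at hη
        exact zero_ne_one hη
      exact F_eq_zero_of_UP (H y ((Tr_mul h y).2 hz)) hper (by rw [inv_pow, hη, inv_one])
        (mul_inv_cancel₀ hη0) hr
  · rintro ⟨H1, H2⟩ y hy
    have hz := (Tr_mul h y).1 hy
    refine UP_of_F hN hdvd (H1 _ hz) fun n0 p hp he η hη hr => ?_
    refine H2 _ p hp ?_ (Tr_shift hz n0) η hη hr
    intro n
    show aeval (S ℤ) Φ y (n0 + (n + p)) = aeval (S ℤ) Φ y (n0 + n)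
    rw [show n0 + (n + p) = n0 + p + n by ring]
    exact he n

/-- an orbit that is not ultimately periodic is unbounded -/
lemma unbounded_of_not_ult {d : ℕ} {r : Fin d → ℝ} {z : Fin d → ℤ} (h : ¬ UltPeriodic r z) (B : ℤ) :
    ∃ n, ∃ i, B < |(tau r)^[n] z i| := by
  by_contra hcon
  push Not at hcon
  apply h
  have hfin : (Set.Icc (fun _ : Fin d => -B) (fun _ => B)).Finite := Set.finite_Icc _ _
  have hmem : ∀ n, (tau r)^[n] z ∈ Set.Icc (fun _ : Fin d => -B) (fun _ => B) := by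
    intro n
    constructor
    · intro i
      exact (abs_le.1 (hcon n i)).1
    · intro i
      exact (abs_le.1 (hcon n i)).2
  have : Finite (Set.Icc (fun _ : Fin d => -B) (fun _ => B)) := hfin
  obtain ⟨a, b, hab, he⟩ := Finite.exists_ne_map_eq_of_infinite
    (fun n : ℕ => (⟨(tau r)^[n] z, hmem n⟩ : Set.Icc (fun _ : Fin d => -B) (fun _ => B)))
  simp only [Subtype.mk.injEq] at he
  rcases lt_or_gt_of_ne hab with hlt | hlt
  · refine ⟨a, b - a, by omega, ?_⟩
    rw [show a + (b - a) = b by omega]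
    exact he.symm
  · refine ⟨b, a - b, by omega, ?_⟩
    rw [show b + (a - b) = a by omega]
    exact he

end Pool.Agent.Y379.SR
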