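import Mathlib
import Pool.Agent.Y379.SR.Four

set_option autoImplicit false

open Polynomial

namespace Pool.Agent.Y379.SR

open Pool.Agent.Results.MP_e7d72a_nt.Resonance

lemma monic_charPoly {k : ℕ} (s : Fin k → ℝ) : (charPoly s).Monic :=
  monic_X_pow_add (degree_sum_fin_lt s)

lemma natDegree_charPoly {k : ℕ} (s : Fin k → ℝ) : (charPoly s).natDegree = k := by
  refine natDegree_eq_of_degree_eq_some ?_
  unfold charPoly
  rw [degree_add_eq_left_of_degree_lt, degree_X_pow]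
  rw [degree_X_pow]
  exact degree_sum_fin_lt s

lemma exists_charPoly {d : ℕ} {P : ℝ[X]} (hm : P.Monic) (hd : P.natDegree = d) :
    ∃ r : Fin d → ℝ, charPoly r = P := by
  refine ⟨fun j => P.coeff j, ?_⟩
  unfold charPoly
  conv_rhs => rw [hm.as_sum, hd]
  rw [Finset.sum_range]

lemma exists_mul (m : ℕ) {k : ℕ} (s : Fin k → ℝ) :
    ∃ r : Fin (m.totient + k) → ℝ, charPoly r = cyclotomic m ℝ * charPoly s := by
  refine exists_charPoly ((cyclotomic.monic m ℝ).mul (monic_charPoly s)) ?_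
  rw [(cyclotomic.monic m ℝ).natDegree_mul (monic_charPoly s), natDegree_cyclotomic,
    natDegree_charPoly]

lemma isOpen_E (k : ℕ) : IsOpen (E k) := by
  have h1 : (E k)ᶜ = Prod.fst '' {p : (Fin k → ℝ) × Metric.closedBall (0 : ℂ) 1 |
      1 + ∑ j : Fin k, (p.1 j : ℂ) * (p.2 : ℂ) ^ (k - (j : ℕ)) = 0} := by
    ext s
    constructor
    · intro hs
      have hs' : ∃ μ : ℂ, aeval μ (charPoly s) = 0 ∧ 1 ≤ ‖μ‖ := by
        by_contra hcon
        push Not at hcon
        exact hs hcon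
      obtain ⟨μ, hμ, hn⟩ := hs'
      have hμ0 : μ ≠ 0 := by
        rintro rfl
        rw [norm_zero] at hn
        linarith
      refine ⟨(s, ⟨μ⁻¹, ?_⟩), ?_, rfl⟩
      · rw [mem_closedBall_zero_iff, norm_inv]
        exact inv_le_one_of_one_le₀ hn
      · show 1 + ∑ j : Fin k, (s j : ℂ) * (μ⁻¹) ^ (k - (j : ℕ)) = 0
        rw [aeval_charPoly] at hμ
        have h2 : μ ^ k * (1 + ∑ j : Fin k, (s j : ℂ) * (μ⁻¹) ^ (k - (j : ℕ))) = 0 := by
          rw [← hμ, mul_add, mul_one, Finset.mul_sum]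
          congr 1
          refine Finset.sum_congr rfl fun j _ => ?_
          have hj : k = (k - (j : ℕ)) + j := by omega
          have hk : μ ^ k = μ ^ (k - (j : ℕ)) * μ ^ (j : ℕ) := by rw [← pow_add, ← hj]
          rw [hk, inv_pow]
          field_simp
        exact (mul_eq_zero.1 h2).resolve_left (pow_ne_zero _ hμ0)
    · rintro ⟨⟨s', w, hw⟩, h, rfl⟩ hs
      change 1 + ∑ j : Fin k, (s' j : ℂ) * w ^ (k - (j : ℕ)) = 0 at h
      change s' ∈ E k at hs
      rw [mem_closedBall_zero_iff] at hw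
      have hw0 : w ≠ 0 := by
        rintro rfl
        rw [Finset.sum_eq_zero, add_zero] at h
        · exact one_ne_zero h
        · intro j _
          rw [zero_pow (by omega), mul_zero]
      have h3 := hs w⁻¹ (by
        rw [aeval_charPoly]
        have h2 : w ^ k * ((w⁻¹) ^ k + ∑ j : Fin k, (s' j : ℂ) * (w⁻¹) ^ (j : ℕ)) = 0 := by
          rw [← h, mul_add, Finset.mul_sum, ← mul_pow, mul_inv_cancel₀ hw0, one_pow]
          congr 1
          refine Finset.sum_congr rfl fun j _ => ?_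
          have hj : k = (k - (j : ℕ)) + j := by omega
          have hk : w ^ k = w ^ (k - (j : ℕ)) * w ^ (j : ℕ) := by rw [← pow_add, ← hj]
          rw [hk, inv_pow]
          field_simp
        exact (mul_eq_zero.1 h2).resolve_left (pow_ne_zero _ hw0))
      rw [norm_inv] at h3
      have h4 : 1 ≤ ‖w‖⁻¹ := (one_le_inv₀ (norm_pos_iff.2 hw0)).2 hw
      linarith
  rw [← isClosed_compl_iff, h1]
  refine isClosedMap_fst_of_compactSpace _ (isClosed_eq ?_ continuous_const)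
  fun_prop

lemma aeval_cyc_R (m : ℕ) (μ : ℂ) : aeval μ (cyclotomic m ℝ) = eval μ (cyclotomic m ℂ) := by
  rw [aeval_def, eval₂_eq_eval_map, map_cyclotomic]

lemma aeval_cyc_Z (m : ℕ) (μ : ℂ) : aeval μ (cyclotomic m ℤ) = eval μ (cyclotomic m ℂ) := by
  rw [aeval_def, eval₂_eq_eval_map, map_cyclotomic]

lemma eval_cyc_iff {m : ℕ} (hm : 3 ≤ m) (μ : ℂ) :
    eval μ (cyclotomic m ℂ) = 0 ↔ IsPrimitiveRoot μ m := by
  have h0 : NeZero (m : ℂ) := ⟨by
    have : m ≠ 0 := by omega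
    exact_mod_cast this⟩
  exact isRoot_cyclotomic_iff

lemma prim_im {m : ℕ} (hm : 3 ≤ m) {μ : ℂ} (h : IsPrimitiveRoot μ m) : μ.im ≠ 0 := by
  intro him
  have h1 : ‖μ‖ = 1 := h.norm'_eq_one (by omega)
  have h2 : ‖μ‖ ^ 2 = μ.re ^ 2 + μ.im ^ 2 := by
    rw [Complex.sq_norm, Complex.normSq_apply]
    ring
  rw [h1, him] at h2
  have h3 : μ ^ 2 = 1 := by
    apply Complex.ext
    · simp only [pow_two, Complex.mul_re, him, Complex.one_re]
      nlinarith
    · simp only [pow_two, Complex.mul_im, him, Complex.one_im]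
      ring
  have h4 := Nat.le_of_dvd (by norm_num) (h.dvd_of_pow_eq_one 2 h3)
  omega

lemma mem_EC_of {m k : ℕ} (hm : 3 ≤ m) {s : Fin k → ℝ} (hs : s ∈ E k)
    {r : Fin (m.totient + k) → ℝ} (h : charPoly r = cyclotomic m ℝ * charPoly s) :
    (∀ μ : ℂ, aeval μ (charPoly r) = 0 → ‖μ‖ < 1 ∨ IsPrimitiveRoot μ m) ∧
      r ∈ EC (m.totient + k) := by
  have h1 : ∀ μ : ℂ, aeval μ (charPoly r) = 0 → ‖μ‖ < 1 ∨ IsPrimitiveRoot μ m := by
    intro μ hμ
    rw [h, map_mul] at hμ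
    rcases mul_eq_zero.1 hμ with h2 | h2
    · right
      rw [aeval_cyc_R] at h2
      exact (eval_cyc_iff hm μ).1 h2
    · exact Or.inl (hs μ h2)
  refine ⟨h1, mem_closure_E r ?_, Complex.exp (2 * Real.pi * Complex.I / m), ?_, ?_, ?_⟩
  · intro μ hμ
    rcases h1 μ hμ with h2 | h2
    · exact h2.le
    · exact (h2.norm'_eq_one (by omega)).le
  · exact prim_im hm (Complex.isPrimitiveRoot_exp m (by omega))
  · exact (Complex.isPrimitiveRoot_exp m (by omega)).norm'_eq_one (by omega)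
  · rw [h, map_mul, aeval_cyc_R,
      (eval_cyc_iff hm _).2 (Complex.isPrimitiveRoot_exp m (by omega)), zero_mul]

/-- an unbounded orbit from a resonating periodic trajectory -/
lemma exists_unbounded {m k P : ℕ} (hm : 3 ≤ m) {s : Fin k → ℝ}
    {r : Fin (m.totient + k) → ℝ} (h : charPoly r = cyclotomic m ℝ * charPoly s)
    {z : ℕ → ℤ} (hz : ∀ n, z (n + P) = z n) (hs : Tr s z) (hmP : m ∣ P)
    (hF : ∀ ζ : ℂ, IsPrimitiveRoot ζ m → F P ζ z ≠ 0) :
    ∃ z : Fin (m.totient + k) → ℤ, ¬ UltPeriodic r z ∧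
      ∀ B : ℤ, ∃ n, ∃ i, B < |(tau r)^[n] z i| := by
  have hpos : 0 < m.totient + k := by
    have := Nat.totient_pos.2 (show 0 < m by omega)
    omega
  obtain ⟨y, hy⟩ := exists_solution (cyclotomic.monic m ℤ) z
  have h' : charPoly r = (cyclotomic m ℤ).map (Int.castRingHom ℝ) * charPoly s := by
    rw [h, map_cyclotomic]
  have hTr : Tr r y := by
    rw [Tr_mul h', hy]
    exact hs
  have hnot : ¬ UltPeriodic r (fun i : Fin (m.totient + k) => y i) := by
    rw [ult_iff hpos hTr]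
    intro hUP
    set ζ := Complex.exp (2 * Real.pi * Complex.I / m) with hζdef
    have hζ : IsPrimitiveRoot ζ m := Complex.isPrimitiveRoot_exp m (by omega)
    have hζ0 : ζ ≠ 0 := hζ.ne_zero (by omega)
    have hζP : ζ ^ P = 1 := by
      obtain ⟨q, rfl⟩ := hmP
      rw [pow_mul, hζ.pow_eq_one, one_pow]
    have h1 := F_eq_zero_of_UP hUP (Φ := cyclotomic m ℤ) (P := P) (by rw [hy]; exact hz) hζP
      (inv_mul_cancel₀ hζ0) (by
        rw [aeval_cyc_Z]
        exact (eval_cyc_iff hm _).2 hζ.inv)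
    rw [hy] at h1
    exact hF ζ hζ h1
  exact ⟨_, hnot, unbounded_of_not_ult hnot⟩

/-- open sets of bad parameters from a strict resonating periodic trajectory on the boundary -/
theorem open_bad {m k P : ℕ} (hm : 3 ≤ m) (hP : 1 ≤ P) {sb : Fin k → ℝ}
    (hsb : sb ∈ closure (E k)) {z : ℕ → ℤ} (hz : ∀ n, z (n + P) = z n)
    (hst : ∀ n, 0 < ∑ j : Fin k, sb j * (z (n + j) : ℝ) + z (n + k) ∧
      ∑ j : Fin k, sb j * (z (n + j) : ℝ) + z (n + k) < 1) (hmP : m ∣ P)
    (hF : ∀ ζ : ℂ, IsPrimitiveRoot ζ m → F P ζ z ≠ 0) :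
    ∃ U : Set (Fin k → ℝ), IsOpen U ∧ U.Nonempty ∧ ∀ s ∈ U, s ∈ E k ∧
      ∀ r : Fin (m.totient + k) → ℝ, charPoly r = cyclotomic m ℝ * charPoly s →
        ∃ z : Fin (m.totient + k) → ℤ, ¬ UltPeriodic r z ∧
          ∀ B : ℤ, ∃ n, ∃ i, B < |(tau r)^[n] z i| := by
  set O : Set (Fin k → ℝ) := ⋂ n ∈ Finset.range P,
    {s : Fin k → ℝ | 0 < ∑ j : Fin k, s j * (z (n + j) : ℝ) + z (n + k) ∧
      ∑ j : Fin k, s j * (z (n + j) : ℝ) + z (n + k) < 1} with hO
  have hOopen : IsOpen O := by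
    refine isOpen_biInter_finset fun n _ => ?_
    refine IsOpen.and (isOpen_lt ?_ ?_) (isOpen_lt ?_ ?_) <;> fun_prop
  have hOmem : ∀ s ∈ O, Tr s z := by
    intro s hs n
    have h1 : n % P < P := Nat.mod_lt _ hP
    have h2 := Set.mem_iInter₂.1 hs (n % P) (Finset.mem_range.2 h1)
    have h3 : ∀ j, z (n % P + j) = z (n + j) := by
      intro j
      have h4 := per_mul hz (n / P) (n % P + j)
      rw [← h4]
      congr 1
      have := Nat.mod_add_div n P
      rw [mul_comm (n / P)]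
      omega
    change 0 < ∑ j : Fin k, s j * (z (n % P + j) : ℝ) + z (n % P + k) ∧
      ∑ j : Fin k, s j * (z (n % P + j) : ℝ) + z (n % P + k) < 1 at h2
    simp only [h3] at h2
    exact ⟨h2.1.le, h2.2⟩
  refine ⟨O ∩ E k, hOopen.inter (isOpen_E k), ?_, ?_⟩
  · exact mem_closure_iff.1 hsb O hOopen (Set.mem_iInter₂.2 fun n _ => hst n)
  · rintro s ⟨hsO, hsE⟩
    exact ⟨hsE, fun r hr => exists_unbounded hm hr hz (hOmem s hsO) hmP hF⟩

/-- the two-dimensional boundary parameter `(1, l)`, extended by zeros -/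
noncomputable def sbar (k : ℕ) (l : ℝ) : Fin (k + 2) → ℝ := fun j =>
  if (j : ℕ) = k then 1 else if (j : ℕ) = k + 1 then l else 0

lemma sum_sbar {M : Type*} [AddCommMonoid M] (k : ℕ) (l : ℝ) (g : ℝ → ℕ → M)
    (h0 : ∀ n, g 0 n = 0) :
    ∑ j : Fin (k + 2), g (sbar k l j) j = g 1 k + g l (k + 1) := by
  rw [Fin.sum_univ_add, Fin.sum_univ_two]
  have h1 : ∑ i : Fin k, g (sbar k l (Fin.castAdd 2 i)) (Fin.castAdd 2 i : Fin (k + 2)) = 0 := by
    apply Finset.sum_eq_zero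
    intro i _
    have hi := i.2
    have : sbar k l (Fin.castAdd 2 i) = 0 := by
      simp only [sbar, Fin.val_castAdd]
      rw [if_neg (by omega), if_neg (by omega)]
    rw [this, h0]
  rw [h1, zero_add]
  simp [sbar]

lemma sbar_mem (k : ℕ) {l : ℝ} (hl : l ^ 2 ≤ 4) : sbar k l ∈ closure (E (k + 2)) := by
  refine mem_closure_E _ fun μ hμ => ?_
  rw [aeval_charPoly, sum_sbar k l (fun c n => (c : ℂ) * μ ^ n) (by simp)] at hμ
  have h1 : μ ^ k * (μ ^ 2 + l * μ + 1) = 0 := by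
    rw [← hμ]
    push_cast
    ring
  rcases mul_eq_zero.1 h1 with h2 | h2
  · have h3 : μ = 0 := by
      rcases Nat.eq_zero_or_pos k with hk | hk
      · subst hk
        simp at h2
      · exact (pow_eq_zero_iff (by omega)).1 h2
    rw [h3, norm_zero]
    norm_num
  · have hre := congrArg Complex.re h2
    have him := congrArg Complex.im h2
    simp [pow_two] at hre him
    have hn : ‖μ‖ ^ 2 = μ.re ^ 2 + μ.im ^ 2 := by
      rw [Complex.sq_norm, Complex.normSq_apply]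
      ring
    have h3 : μ.im * (2 * μ.re + l) = 0 := by linarith
    have h4 : ‖μ‖ ^ 2 ≤ 1 := by
      rw [hn]
      rcases mul_eq_zero.1 h3 with h5 | h5
      · rw [h5] at hre ⊢
        have h6 : (μ.re + l / 2) ^ 2 = l ^ 2 / 4 - 1 := by linarith
        have h7 : (μ.re + l / 2) ^ 2 = 0 := le_antisymm (by rw [h6]; linarith) (sq_nonneg _)
        have h8 : μ.re + l / 2 = 0 := pow_eq_zero_iff (by norm_num) |>.1 h7
        have h9 : μ.re = -l / 2 := by linarith
        rw [h9]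
        nlinarith
      · have h9 : μ.re = -l / 2 := by linarith
        rw [h9] at hre ⊢
        nlinarith
    nlinarith [norm_nonneg μ]

/-- open sets in all dimensions from a two-dimensional boundary parameter -/
theorem open_bad_two {m P : ℕ} (hm : 3 ≤ m) (hP : 1 ≤ P) {l : ℝ} (hl : l ^ 2 ≤ 4)
    {z : ℕ → ℤ} (hz : ∀ n, z (n + P) = z n)
    (hst : ∀ n, (0 : ℝ) < z n + l * z (n + 1) + z (n + 2) ∧
      z n + l * z (n + 1) + z (n + 2) < (1 : ℝ)) (hmP : m ∣ P)
    (hF : ∀ ζ : ℂ, IsPrimitiveRoot ζ m → F P ζ z ≠ 0) (k : ℕ) :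
    ∃ U : Set (Fin (k + 2) → ℝ), IsOpen U ∧ U.Nonempty ∧ ∀ s ∈ U, s ∈ E (k + 2) ∧
      ∀ r : Fin (m.totient + (k + 2)) → ℝ, charPoly r = cyclotomic m ℝ * charPoly s →
        ∃ z : Fin (m.totient + (k + 2)) → ℤ, ¬ UltPeriodic r z ∧
          ∀ B : ℤ, ∃ n, ∃ i, B < |(tau r)^[n] z i| := by
  refine open_bad hm hP (sbar_mem k hl) hz ?_ hmP hF
  intro n
  rw [sum_sbar k l (fun c j => c * (z (n + j) : ℝ)) (by simp)]
  have h1 := hst (n + k)
  rw [one_mul, show n + (k + 1) = n + k + 1 by ring, show n + (k + 2) = n + k + 2 by ring]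
  exact h1

end Pool.Agent.Y379.SR
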