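import Mathlib
import Pool.Agent.Y379.SR.Opn

set_option autoImplicit false

open Polynomial

namespace Pool.Agent.Y379.SR

open Pool.Agent.Results.MP_e7d72a_nt.Resonance

/-- base data: a strict periodic trajectory of a two-dimensional boundary parameter -/
def Base (m P : ℕ) (l : ℝ) (z : ℕ → ℤ) : Prop :=
  1 ≤ P ∧ l ^ 2 ≤ 4 ∧ (∀ n, z (n + P) = z n) ∧
  (∀ n, (0 : ℝ) < z n + l * z (n + 1) + z (n + 2) ∧ z n + l * z (n + 1) + z (n + 2) < (1 : ℝ)) ∧
  m ∣ P ∧ ∀ ζ : ℂ, IsPrimitiveRoot ζ m → F P ζ z ≠ 0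

lemma wrap {g : ℕ → ℤ} {P : ℕ} (h2 : 2 ≤ P) (h0 : g P = g 0) (h1 : g (P + 1) = g 1) (n : ℕ) :
    g ((n + 1) % P) = g (n % P + 1) ∧ g ((n + 2) % P) = g (n % P + 2) := by
  have hlt : n % P < P := Nat.mod_lt _ (by omega)
  have e1 : (n + 1) % P = (n % P + 1) % P := by simp
  have e2 : (n + 2) % P = (n % P + 2) % P := by simp
  rw [e1, e2]
  set a := n % P with ha
  constructor
  · rcases Nat.lt_or_ge (a + 1) P with h | h
    · rw [Nat.mod_eq_of_lt h]
    · have h3 : a + 1 = P := by omega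
      rw [h3, Nat.mod_self, h0]
  · rcases Nat.lt_or_ge (a + 2) P with h | h
    · rw [Nat.mod_eq_of_lt h]
    · rcases Nat.lt_or_ge (a + 1) P with h4 | h4
      · have h3 : a + 2 = P := by omega
        rw [h3, Nat.mod_self, h0]
      · have h3 : a + 2 = P + 1 := by omega
        rw [h3, h1, Nat.add_mod_left, Nat.mod_eq_of_lt (by omega)]

/-- recurrences on one period suffice -/
lemma wrap_all {g : ℕ → ℤ} {P : ℕ} (h2 : 2 ≤ P) (h0 : g P = g 0) (h1 : g (P + 1) = g 1)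
    {Q : ℤ → ℤ → ℤ → Prop} (h : ∀ a < P, Q (g a) (g (a + 1)) (g (a + 2))) (n : ℕ) :
    Q (g (n % P)) (g ((n + 1) % P)) (g ((n + 2) % P)) := by
  obtain ⟨e1, e2⟩ := wrap h2 h0 h1 n
  rw [e1, e2]
  exact h _ (Nat.mod_lt _ (by omega))

/-- Fourier sums of second differences -/
lemma F_second {P : ℕ} {ζ : ℂ} {z : ℕ → ℤ} (hz : ∀ n, z (n + P) = z n) (hζ : ζ ^ P = 1)
    (hF : F P ζ z = 0) (a : ℤ) : ∑ n ∈ Finset.range P, ((z (n + 2) + a * z (n + 1) + z n : ℤ) : ℂ) * ζ ^ n = 0 := by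
  rcases Nat.eq_zero_or_pos P with hP | hP
  · subst hP
    simp
  have hζ0 : ζ ≠ 0 := by
    rintro rfl
    rw [zero_pow (by omega)] at hζ
    exact zero_ne_one hζ
  have h1 := F_shift_pow hz hζ 1
  have h2 := F_shift_pow hz hζ 2
  rw [hF] at h1 h2
  have h1' := (mul_eq_zero.1 h1).resolve_left (pow_ne_zero _ hζ0)
  have h2' := (mul_eq_zero.1 h2).resolve_left (pow_ne_zero _ hζ0)
  unfold F at hF h1' h2'
  have h3 : ∑ n ∈ Finset.range P, ((z (n + 2) + a * z (n + 1) + z n : ℤ) : ℂ) * ζ ^ n =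
      ∑ n ∈ Finset.range P, (z (n + 2) : ℂ) * ζ ^ n +
      a * ∑ n ∈ Finset.range P, (z (n + 1) : ℂ) * ζ ^ n +
      ∑ n ∈ Finset.range P, (z n : ℂ) * ζ ^ n := by
    rw [Finset.mul_sum, ← Finset.sum_add_distrib, ← Finset.sum_add_distrib]
    refine Finset.sum_congr rfl fun n _ => ?_
    push_cast
    ring
  rw [h3, h2', h1', hF]
  ring

/-! ### the odd family -/

/-- one period of the odd family -/
def go (W : ℤ) (n : ℕ) : ℤ :=
  if n % 2 = 0 then -W + 4 * W * (n / 2 : ℕ) - (n / 2 : ℕ) * ((n / 2 : ℕ) - 1)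
  else -(W + 4 * W * (n / 2 : ℕ) - (n / 2 : ℕ) ^ 2)

lemma go_even (W : ℤ) (i : ℕ) : go W (2 * i) = -W + 4 * W * i - i * (i - 1) := by
  have h1 : 2 * i % 2 = 0 := by omega
  have h2 : 2 * i / 2 = i := by omega
  simp only [go, h1, h2, if_true]

lemma go_odd (W : ℤ) (i : ℕ) : go W (2 * i + 1) = -(W + 4 * W * i - i ^ 2) := by
  have h1 : (2 * i + 1) % 2 = 1 := by omega
  have h2 : (2 * i + 1) / 2 = i := by omega
  simp only [go, h1, h2]
  rw [if_neg (by norm_num)]

/-- the recurrence on one period -/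
lemma go_rec (W : ℕ) (hW : 1 ≤ W) (a : ℕ) (ha : a < 8 * W + 1) :
    (a % 2 = 0 ∧ go W (a + 2) + 2 * go W (a + 1) + go W a = 0 ∧ go W (a + 1) < 0 ∧
      -(16 * (W : ℤ) ^ 2 + W + 1) < go W (a + 1)) ∨
    (a % 2 = 1 ∧ go W (a + 2) + 2 * go W (a + 1) + go W a = 1 ∧ 0 < go W (a + 1) ∧
      go W (a + 1) < 16 * (W : ℤ) ^ 2 + W + 1) := by
  have hW' : (1 : ℤ) ≤ W := by exact_mod_cast hW
  rcases Nat.mod_two_eq_zero_or_one a with h | h
  · left
    obtain ⟨i, rfl⟩ : ∃ i, a = 2 * i := ⟨a / 2, by omega⟩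
    have hi : (i : ℤ) ≤ 4 * W := by
      have : i ≤ 4 * W := by omega
      exact_mod_cast this
    have hi0 : (0 : ℤ) ≤ i := by positivity
    rw [show 2 * i + 2 = 2 * (i + 1) by ring, go_even, go_even, go_odd]
    push_cast
    have h3 : 0 ≤ (i : ℤ) * (4 * W - i) := mul_nonneg hi0 (by linarith)
    refine ⟨h, by ring, by nlinarith, ?_⟩
    nlinarith
  · right
    obtain ⟨i, rfl⟩ : ∃ i, a = 2 * i + 1 := ⟨a / 2, by omega⟩
    have hi : (i : ℤ) + 1 ≤ 4 * W := by
      have : i + 1 ≤ 4 * W := by omega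
      exact_mod_cast this
    have hi0 : (0 : ℤ) ≤ i := by positivity
    rw [show 2 * i + 1 + 2 = 2 * (i + 1) + 1 by ring, show 2 * i + 1 + 1 = 2 * (i + 1) by ring,
      go_even, go_odd, go_odd]
    push_cast
    have h3 : 0 ≤ (i : ℤ) * (4 * W - 1 - i) := mul_nonneg hi0 (by linarith)
    refine ⟨h, by ring, by nlinarith, ?_⟩
    nlinarith [sq_nonneg ((i : ℤ) - 2 * W)]

lemma geo_odd (ζ : ℂ) (N : ℕ) :
    (ζ ^ 2 - 1) * ∑ n ∈ Finset.range (2 * N + 1), ((n % 2 : ℕ) : ℂ) * ζ ^ n = ζ ^ (2 * N + 1) - ζ := by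
  induction N with
  | zero => simp
  | succ N ih =>
    rw [show 2 * (N + 1) + 1 = 2 * N + 1 + 1 + 1 by ring, Finset.sum_range_succ,
      Finset.sum_range_succ, mul_add, mul_add, ih]
    have h1 : (2 * N + 1) % 2 = 1 := by omega
    have h2 : (2 * N + 1 + 1) % 2 = 0 := by omega
    rw [h1, h2]
    push_cast
    ring

lemma base_odd {m : ℕ} (hm : 3 ≤ m) (hodd : m % 2 = 1) : ∃ P l z, Base m P l z := by
  obtain ⟨W, hW⟩ : ∃ W, m * m = 8 * W + 1 := by
    have h1 : m * m % 8 = 1 := by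
      have h2 : m % 8 = 1 ∨ m % 8 = 3 ∨ m % 8 = 5 ∨ m % 8 = 7 := by omega
      rcases h2 with h2 | h2 | h2 | h2 <;> simp [Nat.mul_mod, h2]
    exact ⟨m * m / 8, by omega⟩
  have hW1 : 1 ≤ W := by
    by_contra hcon
    have : W = 0 := by omega
    subst this
    nlinarith
  have hW' : (1 : ℝ) ≤ W := by exact_mod_cast hW1
  set K : ℝ := 16 * (W : ℝ) ^ 2 + W + 1 with hK
  have hKpos : 0 < K := by positivity
  have hK1 : 1 ≤ K := by
    rw [hK]
    nlinarith [sq_nonneg (W : ℝ)]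
  have h0 : go W (8 * W + 1) = go W 0 := by
    rw [show 8 * W + 1 = 2 * (4 * W) + 1 by ring, go_odd, show (0 : ℕ) = 2 * 0 by rfl, go_even]
    push_cast
    ring
  have h1 : go W (8 * W + 1 + 1) = go W 1 := by
    rw [show 8 * W + 1 + 1 = 2 * (4 * W + 1) by ring, go_even, show (1 : ℕ) = 2 * 0 + 1 by rfl,
      go_odd]
    push_cast
    ring
  refine ⟨8 * W + 1, 2 - 1 / K, fun n => go W (n % (8 * W + 1)), by omega, ?_, ?_, ?_, ?_, ?_⟩
  · have h2 : 0 < 1 / K := by positivity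
    have h3 : 1 / K ≤ 1 := by
      rw [div_le_one hKpos]
      exact hK1
    nlinarith
  · intro n
    simp
  · intro n
    refine wrap_all (g := go W) (P := 8 * W + 1) (by omega) h0 h1
      (Q := fun x y w => (0 : ℝ) < x + (2 - 1 / K) * y + w ∧ x + (2 - 1 / K) * y + w < (1 : ℝ)) ?_ n
    intro a ha
    rcases go_rec W hW1 a ha with ⟨_, h2, h3, h4⟩ | ⟨_, h2, h3, h4⟩
    · have h2' : (go W (a + 2) : ℝ) + 2 * go W (a + 1) + go W a = 0 := by exact_mod_cast h2
      have h3' : (go W (a + 1) : ℝ) < 0 := by exact_mod_cast h3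
      have h4' : -K < (go W (a + 1) : ℝ) := by
        rw [hK]
        exact_mod_cast h4
      have h5 : (go W a : ℝ) + (2 - 1 / K) * go W (a + 1) + go W (a + 2) =
          -(go W (a + 1) : ℝ) / K := by
        field_simp
        linear_combination K * h2'
      rw [h5]
      constructor
      · exact div_pos (by linarith) hKpos
      · rw [div_lt_one hKpos]
        linarith
    · have h2' : (go W (a + 2) : ℝ) + 2 * go W (a + 1) + go W a = 1 := by exact_mod_cast h2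
      have h3' : (0 : ℝ) < (go W (a + 1) : ℝ) := by exact_mod_cast h3
      have h4' : (go W (a + 1) : ℝ) < K := by
        rw [hK]
        exact_mod_cast h4
      have h5 : (go W a : ℝ) + (2 - 1 / K) * go W (a + 1) + go W (a + 2) =
          1 - (go W (a + 1) : ℝ) / K := by
        field_simp
        linear_combination K * h2'
      rw [h5]
      have h6 : 0 < (go W (a + 1) : ℝ) / K := div_pos h3' hKpos
      have h7 : (go W (a + 1) : ℝ) / K < 1 := by
        rw [div_lt_one hKpos]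
        exact h4'
      constructor <;> linarith
  · exact ⟨m, hW.symm⟩
  · intro ζ hζ hF
    have hζP : ζ ^ (8 * W + 1) = 1 := by
      rw [← hW, pow_mul, hζ.pow_eq_one, one_pow]
    have hz : ∀ n, (fun n => go W (n % (8 * W + 1))) (n + (8 * W + 1)) =
        (fun n => go W (n % (8 * W + 1))) n := by
      intro n
      simp
    have h2 := F_second hz hζP hF 2
    have h3 : ∑ n ∈ Finset.range (8 * W + 1),
        (((fun n => go W (n % (8 * W + 1))) (n + 2) + 2 * (fun n => go W (n % (8 * W + 1))) (n + 1)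
          + (fun n => go W (n % (8 * W + 1))) n : ℤ) : ℂ) * ζ ^ n =
        ∑ n ∈ Finset.range (8 * W + 1), ((n % 2 : ℕ) : ℂ) * ζ ^ n := by
      refine Finset.sum_congr rfl fun n hn => ?_
      have hn' := Finset.mem_range.1 hn
      have hmod : n % (8 * W + 1) = n := Nat.mod_eq_of_lt hn'
      obtain ⟨e1, e2⟩ := wrap (g := go W) (P := 8 * W + 1) (by omega) h0 h1 n
      simp only
      rw [e1, e2, hmod]
      rcases go_rec W hW1 n hn' with ⟨h4, h5, _⟩ | ⟨h4, h5, _⟩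
      · rw [h5, h4]
        simp
      · rw [h5, h4]
        simp
    rw [h3] at h2
    have h4 := geo_odd ζ (4 * W)
    rw [show 2 * (4 * W) + 1 = 8 * W + 1 by ring, h2, mul_zero, hζP] at h4
    have h5 : ζ = 1 := by linear_combination h4
    exact hζ.ne_one (by omega) h5

end Pool.Agent.Y379.SR
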