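import Mathlib
import Pool.Agent.Y379.SR.Fam

set_option autoImplicit false

open Polynomial

namespace Pool.Agent.Y379.SR

open Pool.Agent.Results.MP_e7d72a_nt.Resonance

/-! ### the even family -/

/-- one period of the even family -/
def ge (h : ℕ) (n : ℕ) : ℤ :=
  if n < 2 then -2 else if n < h then 2 * n - 5 else if n < h + 2 then 2 * h - 6 else
    if n < 2 * h then 4 * h - 3 - 2 * n else -2

/-- second differences of the even family -/
def ce (h : ℕ) (n : ℕ) : ℤ :=
  if n < 2 ∨ 2 * h ≤ n + 2 then 1 else if h ≤ n + 2 ∧ n < h + 2 then -1 else 0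

lemma ge_rec {h : ℕ} (hh : 6 ≤ h) {a : ℕ} (ha : a < 2 * h) :
    ge h (a + 2) + -2 * ge h (a + 1) + ge h a = ce h a := by
  unfold ge ce
  push_cast
  split_ifs <;> omega

lemma ge_bound {h : ℕ} (hh : 6 ≤ h) {a : ℕ} (ha : a < 2 * h) :
    (ce h a = 1 ∧ -2 ≤ ge h (a + 1) ∧ ge h (a + 1) ≤ -1) ∨
    (ce h a = 0 ∧ 1 ≤ ge h (a + 1) ∧ ge h (a + 1) ≤ 2 * h - 9) ∨
    (ce h a = -1 ∧ 2 * (h : ℤ) - 7 ≤ ge h (a + 1) ∧ ge h (a + 1) ≤ 2 * h - 6) := by
  unfold ge ce
  push_cast
  split_ifs <;> omega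

lemma ce_sum {h : ℕ} (hh : 6 ≤ h) (n : ℕ) (hn : n < 2 * h) : (ce h n : ℤ) =
    (if n = 0 then 1 else 0) + (if n = 1 then 1 else 0) + (if n = 2 * h - 2 then 1 else 0) +
      (if n = 2 * h - 1 then 1 else 0) - (if n = h - 2 then 1 else 0) -
      (if n = h - 1 then 1 else 0) - (if n = h then 1 else 0) - (if n = h + 1 then 1 else 0) := by
  unfold ce
  split_ifs <;> omega

lemma ce_fourier {h : ℕ} (hh : 6 ≤ h) {ζ : ℂ} (hζ : ζ ^ h = -1) :
    ζ ^ 2 * ∑ n ∈ Finset.range (2 * h), (ce h n : ℂ) * ζ ^ n = 2 * ((1 + ζ) * (1 + ζ ^ 2)) := by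
  have h1 : ∑ n ∈ Finset.range (2 * h), (ce h n : ℂ) * ζ ^ n =
      ∑ n ∈ Finset.range (2 * h), ((if n = 0 then ζ ^ n else 0) + (if n = 1 then ζ ^ n else 0) +
      (if n = 2 * h - 2 then ζ ^ n else 0) +
      (if n = 2 * h - 1 then ζ ^ n else 0) - (if n = h - 2 then ζ ^ n else 0) -
      (if n = h - 1 then ζ ^ n else 0) - (if n = h then ζ ^ n else 0) -
      (if n = h + 1 then ζ ^ n else 0)) := by
    refine Finset.sum_congr rfl fun n hn => ?_
    rw [ce_sum hh n (Finset.mem_range.1 hn)]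
    push_cast
    simp only [sub_mul, add_mul, ite_mul, one_mul, zero_mul]
  rw [h1]
  simp only [Finset.sum_sub_distrib, Finset.sum_add_distrib, Finset.sum_ite_eq',
    Finset.mem_range]
  rw [if_pos (by omega), if_pos (by omega), if_pos (by omega), if_pos (by omega),
    if_pos (by omega), if_pos (by omega), if_pos (by omega), if_pos (by omega)]
  have e1 : ζ ^ 2 * ζ ^ (2 * h - 2) = 1 := by
    rw [← pow_add, show 2 + (2 * h - 2) = h * 2 by omega, pow_mul, hζ]
    norm_num
  have e2 : ζ ^ 2 * ζ ^ (2 * h - 1) = ζ := by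
    rw [← pow_add, show 2 + (2 * h - 1) = h * 2 + 1 by omega, pow_succ, pow_mul, hζ]
    norm_num
  have e3 : ζ ^ 2 * ζ ^ (h - 2) = -1 := by
    rw [← pow_add, show 2 + (h - 2) = h by omega, hζ]
  have e4 : ζ ^ 2 * ζ ^ (h - 1) = -ζ := by
    rw [← pow_add, show 2 + (h - 1) = h + 1 by omega, pow_succ, hζ]
    norm_num
  have e5 : ζ ^ (h + 1) = -ζ := by
    rw [pow_succ, hζ]
    norm_num
  rw [hζ, e5, pow_zero, pow_one]
  linear_combination e1 + e2 - e3 - e4

lemma base_even {m : ℕ} (hm : 6 ≤ m) (heven : m % 2 = 0) : ∃ P l z, Base m P l z := by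
  obtain ⟨t, rfl⟩ : ∃ t, m = 2 * t := ⟨m / 2, by omega⟩
  have ht : 3 ≤ t := by omega
  set h := 3 * t with hh
  have hh6 : 6 ≤ h := by omega
  have hh' : (6 : ℝ) ≤ h := by exact_mod_cast hh6
  set K : ℝ := 2 * (h : ℝ) - 8 with hK
  have hKpos : 0 < K := by
    rw [hK]
    linarith
  have hK4 : 4 ≤ K := by
    rw [hK]
    linarith
  have h0 : ge h (2 * h) = ge h 0 := by
    unfold ge
    split_ifs <;> omega
  have h1 : ge h (2 * h + 1) = ge h 1 := by
    unfold ge
    split_ifs <;> omega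
  refine ⟨2 * h, -2 + 1 / K, fun n => ge h (n % (2 * h)), by omega, ?_, ?_, ?_, ?_, ?_⟩
  · have h2 : 0 < 1 / K := by positivity
    have h3 : 1 / K ≤ 1 := by
      rw [div_le_one hKpos]
      linarith
    nlinarith
  · intro n
    simp
  · intro n
    refine wrap_all (g := ge h) (P := 2 * h) (by omega) h0 h1
      (Q := fun x y w => (0 : ℝ) < x + (-2 + 1 / K) * y + w ∧ x + (-2 + 1 / K) * y + w < (1 : ℝ))
      ?_ n
    intro a ha
    have h2 := ge_rec hh6 ha
    have h2' : (ge h (a + 2) : ℝ) + -2 * ge h (a + 1) + ge h a = ce h a := by exact_mod_cast h2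
    have h5 : (ge h a : ℝ) + (-2 + 1 / K) * ge h (a + 1) + ge h (a + 2) =
        ce h a + (ge h (a + 1) : ℝ) / K := by
      field_simp
      linear_combination K * h2'
    rw [h5]
    rcases ge_bound hh6 ha with ⟨h3, h4, h6⟩ | ⟨h3, h4, h6⟩ | ⟨h3, h4, h6⟩
    · rw [h3]
      have h4' : (-2 : ℝ) ≤ (ge h (a + 1) : ℝ) := by exact_mod_cast h4
      have h6' : (ge h (a + 1) : ℝ) ≤ -1 := by exact_mod_cast h6
      constructor
      · have : -1 < (ge h (a + 1) : ℝ) / K := by
          rw [lt_div_iff₀ hKpos]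
          linarith
        push_cast
        linarith
      · have : (ge h (a + 1) : ℝ) / K < 0 := div_neg_of_neg_of_pos (by linarith) hKpos
        push_cast
        linarith
    · rw [h3]
      have h4' : (1 : ℝ) ≤ (ge h (a + 1) : ℝ) := by exact_mod_cast h4
      have h6' : (ge h (a + 1) : ℝ) ≤ 2 * h - 9 := by exact_mod_cast h6
      constructor
      · have : 0 < (ge h (a + 1) : ℝ) / K := div_pos (by linarith) hKpos
        push_cast
        linarith
      · have : (ge h (a + 1) : ℝ) / K < 1 := by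
          rw [div_lt_one hKpos, hK]
          linarith
        push_cast
        linarith
    · rw [h3]
      have h4' : 2 * (h : ℝ) - 7 ≤ (ge h (a + 1) : ℝ) := by exact_mod_cast h4
      have h6' : (ge h (a + 1) : ℝ) ≤ 2 * h - 6 := by exact_mod_cast h6
      constructor
      · have : 1 < (ge h (a + 1) : ℝ) / K := by
          rw [lt_div_iff₀ hKpos, hK]
          linarith
        push_cast
        linarith
      · have : (ge h (a + 1) : ℝ) / K < 2 := by
          rw [div_lt_iff₀ hKpos, hK]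
          linarith
        push_cast
        linarith
  · exact ⟨3, by omega⟩
  · intro ζ hζ hF
    have ht1 : ζ ^ t = -1 := by
      have h2 : (ζ ^ t) ^ 2 = 1 := by
        rw [← pow_mul, mul_comm t 2, hζ.pow_eq_one]
      have h3 : (ζ ^ t - 1) * (ζ ^ t + 1) = 0 := by linear_combination h2
      rcases mul_eq_zero.1 h3 with h4 | h4
      · exfalso
        have h5 := Nat.le_of_dvd (by omega) (hζ.dvd_of_pow_eq_one t (sub_eq_zero.1 h4))
        omega
      · exact eq_neg_of_add_eq_zero_left h4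
    have hζh : ζ ^ h = -1 := by
      rw [hh, mul_comm, pow_mul, ht1]
      norm_num
    have hζP : ζ ^ (2 * h) = 1 := by
      rw [mul_comm, pow_mul, hζh]
      norm_num
    have hz : ∀ n, (fun n => ge h (n % (2 * h))) (n + 2 * h) = (fun n => ge h (n % (2 * h))) n := by
      intro n
      simp
    have h2 := F_second hz hζP hF (-2)
    have h3 : ∑ n ∈ Finset.range (2 * h),
        (((fun n => ge h (n % (2 * h))) (n + 2) + -2 * (fun n => ge h (n % (2 * h))) (n + 1)
          + (fun n => ge h (n % (2 * h))) n : ℤ) : ℂ) * ζ ^ n =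
        ∑ n ∈ Finset.range (2 * h), (ce h n : ℂ) * ζ ^ n := by
      refine Finset.sum_congr rfl fun n hn => ?_
      have hn' := Finset.mem_range.1 hn
      have hmod : n % (2 * h) = n := Nat.mod_eq_of_lt hn'
      obtain ⟨e1, e2⟩ := wrap (g := ge h) (P := 2 * h) (by omega) h0 h1 n
      simp only
      rw [e1, e2, hmod, ge_rec hh6 hn']
    rw [h3] at h2
    have h4 := ce_fourier hh6 hζh
    rw [h2, mul_zero] at h4
    have h5 : (1 + ζ) * (1 + ζ ^ 2) = 0 := by
      have := mul_eq_zero.1 h4.symm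
      exact this.resolve_left two_ne_zero
    rcases mul_eq_zero.1 h5 with h6 | h6
    · have h7 : ζ ^ 2 = 1 := by
        have h8 : ζ = -1 := by linear_combination h6
        rw [h8]
        norm_num
      have h9 := Nat.le_of_dvd (by norm_num) (hζ.dvd_of_pow_eq_one 2 h7)
      omega
    · have h7 : ζ ^ 4 = 1 := by
        have h8 : ζ ^ 2 = -1 := by linear_combination h6
        rw [show ζ ^ 4 = (ζ ^ 2) ^ 2 by ring, h8]
        norm_num
      have h9 := Nat.le_of_dvd (by norm_num) (hζ.dvd_of_pow_eq_one 4 h7)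
      omega

/-! ### order four -/

/-- one period for `m = 4` -/
def gf : ℕ → ℤ
  | 0 => -5
  | 1 => -5
  | 2 => -2
  | 3 => 3
  | 4 => 7
  | 5 => 7
  | 6 => 3
  | 7 => -2
  | 8 => -5
  | 9 => -5
  | _ => 0

lemma base_four : ∃ P l z, Base 4 P l z := by
  refine ⟨8, -17 / 12, fun n => gf (n % 8), by norm_num, by norm_num, ?_, ?_, ⟨2, rfl⟩, ?_⟩
  · intro n
    simp
  · intro n
    refine wrap_all (g := gf) (P := 8) (by norm_num) rfl rfl
      (Q := fun x y w => (0 : ℝ) < x + (-17 / 12) * y + w ∧ x + (-17 / 12) * y + w < (1 : ℝ)) ?_ n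
    intro a ha
    interval_cases a <;> norm_num [gf]
  · intro ζ hζ hF
    have h2 : ζ ^ 2 = -1 := by
      have h3 : (ζ ^ 2 - 1) * (ζ ^ 2 + 1) = 0 := by
        have := hζ.pow_eq_one
        linear_combination this
      rcases mul_eq_zero.1 h3 with h4 | h4
      · exfalso
        have h5 := Nat.le_of_dvd (by norm_num) (hζ.dvd_of_pow_eq_one 2 (sub_eq_zero.1 h4))
        omega
      · exact eq_neg_of_add_eq_zero_left h4
    have h3 : F 8 ζ (fun n => gf (n % 8)) = 1 + ζ := by
      unfold F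
      rw [Finset.sum_range_succ, Finset.sum_range_succ, Finset.sum_range_succ,
        Finset.sum_range_succ, Finset.sum_range_succ, Finset.sum_range_succ,
        Finset.sum_range_succ, Finset.sum_range_succ, Finset.sum_range_zero]
      have e3 : ζ ^ 3 = -ζ := by linear_combination ζ * h2
      have e4 : ζ ^ 4 = 1 := by linear_combination (ζ ^ 2 - 1) * h2
      have e5 : ζ ^ 5 = ζ := by linear_combination ζ * e4
      have e6 : ζ ^ 6 = -1 := by linear_combination ζ ^ 2 * e4 + h2
      have e7 : ζ ^ 7 = -ζ := by linear_combination ζ ^ 3 * e4 + e3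
      rw [h2, e3, e4, e5, e6, e7]
      norm_num [gf]
      ring
    rw [h3] at hF
    have h4 : ζ = -1 := by linear_combination hF
    rw [h4] at h2
    norm_num at h2

theorem base_all {m : ℕ} (hm : 3 ≤ m) : ∃ P l z, Base m P l z := by
  rcases Nat.mod_two_eq_zero_or_one m with h | h
  · rcases Nat.lt_or_ge m 6 with h6 | h6
    · have : m = 4 := by omega
      subst this
      exact base_four
    · exact base_even h6 h
  · exact base_odd hm h

/-- open sets of bad parameters for every order and every complementary dimension `k + 2` -/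
theorem open_bad_all {m : ℕ} (hm : 3 ≤ m) (k : ℕ) :
    ∃ U : Set (Fin (k + 2) → ℝ), IsOpen U ∧ U.Nonempty ∧ ∀ s ∈ U, s ∈ E (k + 2) ∧
      ∀ r : Fin (m.totient + (k + 2)) → ℝ, charPoly r = cyclotomic m ℝ * charPoly s →
        ∃ z : Fin (m.totient + (k + 2)) → ℤ, ¬ UltPeriodic r z ∧
          ∀ B : ℤ, ∃ n, ∃ i, B < |(tau r)^[n] z i| := by
  obtain ⟨P, l, z, h1, h2, h3, h4, h5, h6⟩ := base_all hm
  exact open_bad_two hm h1 h2 h3 h4 h5 h6 k

end Pool.Agent.Y379.SR
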