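import Mathlib
import Pool.Agent.Y379.SR.Fam2

set_option autoImplicit false

open Polynomial

namespace Pool.Agent.Y379.SR

open Pool.Agent.Results.MP_e7d72a_nt.Resonance

lemma dim_eq {d k : ℕ} {r : Fin d → ℝ} {s : Fin k → ℝ} {Φ : ℤ[X]} (hΦ : Φ.Monic)
    (h : charPoly r = Φ.map (Int.castRingHom ℝ) * charPoly s) : d = Φ.natDegree + k := by
  have h1 := congrArg natDegree h
  rw [natDegree_charPoly, (hΦ.map _).natDegree_mul (monic_charPoly s), natDegree_charPoly,
    natDegree_map_eq_of_injective (RingHom.injective_int (Int.castRingHom ℝ))] at h1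
  exact h1

lemma exists_param {k : ℕ} (s : Fin k → ℝ) {Φ : ℤ[X]} (hΦ : Φ.Monic) :
    ∃ r : Fin (Φ.natDegree + k) → ℝ, charPoly r = Φ.map (Int.castRingHom ℝ) * charPoly s := by
  refine exists_charPoly ((hΦ.map _).mul (monic_charPoly s)) ?_
  rw [(hΦ.map _).natDegree_mul (monic_charPoly s), natDegree_charPoly,
    natDegree_map_eq_of_injective (RingHom.injective_int (Int.castRingHom ℝ))]

lemma aeval_map_R (Φ : ℤ[X]) (μ : ℂ) : aeval μ (Φ.map (Int.castRingHom ℝ)) = aeval μ Φ := by
  rw [aeval_def, aeval_def, eval₂_map]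
  congr 1

lemma root_pow {Φ : ℤ[X]} {N : ℕ} (hdvd : Φ ∣ X ^ N - 1) {η : ℂ} (hr : aeval η Φ = 0) :
    η ^ N = 1 := by
  obtain ⟨Q, hQ⟩ := hdvd
  have h1 := congrArg (aeval η) hQ
  rw [map_mul, hr, zero_mul, map_sub, map_pow, aeval_X, map_one] at h1
  exact sub_eq_zero.1 h1

lemma root_norm {Φ : ℤ[X]} {N : ℕ} (hN : 1 ≤ N) (hdvd : Φ ∣ X ^ N - 1) {η : ℂ}
    (hr : aeval η Φ = 0) : ‖η‖ = 1 :=
  Complex.norm_eq_one_of_pow_eq_one (root_pow hdvd hr) (by omega)

lemma mem_EC_gen {d k N : ℕ} {r : Fin d → ℝ} {s : Fin k → ℝ} {Φ : ℤ[X]} (hN : 1 ≤ N)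
    (hdvd : Φ ∣ X ^ N - 1) (h : charPoly r = Φ.map (Int.castRingHom ℝ) * charPoly s)
    (hs : s ∈ E k) (him : ∃ η : ℂ, η.im ≠ 0 ∧ aeval η Φ = 0) : r ∈ EC d := by
  obtain ⟨η, him, hr⟩ := him
  refine ⟨mem_closure_E r ?_, η, him, root_norm hN hdvd hr, ?_⟩
  · intro μ hμ
    rw [h, map_mul, aeval_map_R] at hμ
    rcases mul_eq_zero.1 hμ with h2 | h2
    · exact (root_norm hN hdvd h2).le
    · exact (hs μ h2).le
  · rw [h, map_mul, aeval_map_R, hr, zero_mul]

/-- an unbounded orbit from a resonating periodic trajectory -/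
lemma exists_unbounded_gen {d k P : ℕ} {Φ : ℤ[X]} (hΦ : Φ.Monic) (hd : 0 < d) {s : Fin k → ℝ}
    {r : Fin d → ℝ} (h : charPoly r = Φ.map (Int.castRingHom ℝ) * charPoly s)
    {z : ℕ → ℤ} (hz : ∀ n, z (n + P) = z n) (hs : Tr s z) {ζ η : ℂ} (hζ : ζ ^ P = 1)
    (hη : η * ζ = 1) (hr : aeval η Φ = 0) (hF : F P ζ z ≠ 0) :
    ∃ z : Fin d → ℤ, ¬ UltPeriodic r z ∧ ∀ B : ℤ, ∃ n, ∃ i, B < |(tau r)^[n] z i| := by
  obtain ⟨y, hy⟩ := exists_solution hΦ z
  have hTr : Tr r y := by
    rw [Tr_mul h, hy]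
    exact hs
  have hnot : ¬ UltPeriodic r (fun i : Fin d => y i) := by
    rw [ult_iff hd hTr]
    intro hUP
    have h1 := F_eq_zero_of_UP hUP (Φ := Φ) (P := P) (by rw [hy]; exact hz) hζ hη hr
    rw [hy] at h1
    exact hF h1
  exact ⟨_, hnot, unbounded_of_not_ult hnot⟩

/-- the boundary parameter is not an interior point -/
lemma sbar_notMem (k : ℕ) {l : ℝ} (hl : l ^ 2 ≤ 4) : sbar k l ∉ E (k + 2) := by
  intro h
  set w : ℝ := Real.sqrt (4 - l ^ 2) with hw
  have hw2 : w ^ 2 = 4 - l ^ 2 := Real.sq_sqrt (by linarith)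
  set μ : ℂ := ⟨-l / 2, w / 2⟩ with hμ
  have hre : μ.re = -l / 2 := rfl
  have him : μ.im = w / 2 := rfl
  have h0 : μ ^ 2 + l * μ + 1 = 0 := by
    apply Complex.ext
    · simp only [pow_two, Complex.add_re, Complex.mul_re, Complex.ofReal_re, Complex.ofReal_im,
        Complex.one_re, Complex.zero_re, hre, him]
      nlinarith
    · simp only [pow_two, Complex.add_im, Complex.mul_im, Complex.ofReal_re, Complex.ofReal_im,
        Complex.one_im, Complex.zero_im, hre, him]
      ring
  have h1 := h μ (by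
    rw [aeval_charPoly, sum_sbar k l (fun c n => (c : ℂ) * μ ^ n) (by simp)]
    have : μ ^ (k + 2) + (((1 : ℝ) : ℂ) * μ ^ k + l * μ ^ (k + 1)) =
        μ ^ k * (μ ^ 2 + l * μ + 1) := by
      push_cast
      ring
    rw [this, h0, mul_zero])
  have hn : ‖μ‖ ^ 2 = μ.re ^ 2 + μ.im ^ 2 := by
    rw [Complex.sq_norm, Complex.normSq_apply]
    ring
  rw [hre, him] at hn
  have h2 : ‖μ‖ ^ 2 = 1 := by
    rw [hn]
    nlinarith
  nlinarith [norm_nonneg μ]

theorem open_bad_gen {Φ : ℤ[X]} {N : ℕ} (hΦ : Φ.Monic) (hN : 1 ≤ N) (hdvd : Φ ∣ X ^ N - 1)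
    (him : ∃ η : ℂ, η.im ≠ 0 ∧ aeval η Φ = 0) (k : ℕ) :
    ∃ U : Set (Fin (k + 2) → ℝ), IsOpen U ∧ (U ∩ E (k + 2)).Nonempty ∧
      (U ∩ frontier (E (k + 2))).Nonempty ∧ ∀ s ∈ U,
      ∀ (d : ℕ) (r : Fin d → ℝ), charPoly r = Φ.map (Int.castRingHom ℝ) * charPoly s →
        ∃ z : Fin d → ℤ, ¬ UltPeriodic r z ∧ ∀ B : ℤ, ∃ n, ∃ i, B < |(tau r)^[n] z i| := by
  obtain ⟨η, him, hr⟩ := him
  set m := orderOf η with hmdef
  have hfin : IsOfFinOrder η := isOfFinOrder_iff_pow_eq_one.2 ⟨N, by omega, root_pow hdvd hr⟩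
  have hmpos : 0 < m := hfin.orderOf_pos
  have hprim : IsPrimitiveRoot η m := IsPrimitiveRoot.orderOf η
  have hm3 : 3 ≤ m := by
    by_contra hcon
    have h12 : m = 1 ∨ m = 2 := by omega
    have hsq : η ^ 2 = 1 := by
      rcases h12 with h1 | h1
      · have h2 := hprim.pow_eq_one
        rw [h1, pow_one] at h2
        rw [h2, one_pow]
      · have h2 := hprim.pow_eq_one
        rw [h1] at h2
        exact h2
    have h3 : (η - 1) * (η + 1) = 0 := by linear_combination hsq
    rcases mul_eq_zero.1 h3 with h4 | h4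
    · rw [sub_eq_zero.1 h4] at him
      exact him (by simp)
    · rw [eq_neg_of_add_eq_zero_left h4] at him
      exact him (by simp)
  obtain ⟨P, l, z, hP, hl, hz, hst, hmP, hF⟩ := base_all hm3
  have hη0 : η ≠ 0 := hprim.ne_zero (by omega)
  have hζP : (η⁻¹) ^ P = 1 := by
    obtain ⟨q, rfl⟩ := hmP
    rw [inv_pow, pow_mul, hprim.pow_eq_one, one_pow, inv_one]
  set O : Set (Fin (k + 2) → ℝ) := ⋂ n ∈ Finset.range P,
    {s : Fin (k + 2) → ℝ | 0 < ∑ j : Fin (k + 2), s j * (z (n + j) : ℝ) + z (n + (k + 2)) ∧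
      ∑ j : Fin (k + 2), s j * (z (n + j) : ℝ) + z (n + (k + 2)) < 1} with hO
  have hOopen : IsOpen O := by
    refine isOpen_biInter_finset fun n _ => ?_
    refine IsOpen.and (isOpen_lt ?_ ?_) (isOpen_lt ?_ ?_) <;> fun_prop
  have hOmem : ∀ s ∈ O, Tr s z := by
    intro s hs n
    have h1 : n % P < P := Nat.mod_lt _ hP
    have h2 := Set.mem_iInter₂.1 hs (n % P) (Finset.mem_range.2 h1)
    have h3 : ∀ j, z (n % P + j) = z (n + j) := by
      intro j
      have h4 := per_mul hz (n / P) (n % P + j)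
      rw [← h4]
      congr 1
      have := Nat.mod_add_div n P
      rw [mul_comm (n / P)]
      omega
    change 0 < ∑ j : Fin (k + 2), s j * (z (n % P + j) : ℝ) + z (n % P + (k + 2)) ∧
      ∑ j : Fin (k + 2), s j * (z (n % P + j) : ℝ) + z (n % P + (k + 2)) < 1 at h2
    simp only [h3] at h2
    exact ⟨h2.1.le, h2.2⟩
  have hsb : sbar k l ∈ O := by
    refine Set.mem_iInter₂.2 fun n _ => ?_
    change 0 < ∑ j : Fin (k + 2), sbar k l j * (z (n + j) : ℝ) + z (n + (k + 2)) ∧
      ∑ j : Fin (k + 2), sbar k l j * (z (n + j) : ℝ) + z (n + (k + 2)) < 1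
    rw [sum_sbar k l (fun c j => c * (z (n + j) : ℝ)) (by simp)]
    have h1 := hst (n + k)
    rw [one_mul, show n + (k + 1) = n + k + 1 by ring, show n + (k + 2) = n + k + 2 by ring]
    exact h1
  refine ⟨O, hOopen, mem_closure_iff.1 (sbar_mem k hl) O hOopen hsb, ⟨sbar k l, hsb, ?_⟩, ?_⟩
  · rw [frontier, (isOpen_E _).interior_eq]
    exact ⟨sbar_mem k hl, sbar_notMem k hl⟩
  · intro s hsO d r h
    have hd := dim_eq hΦ h
    exact exists_unbounded_gen hΦ (by omega) h hz (hOmem s hsO) hζP (mul_inv_cancel₀ hη0) hr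
      (hF _ hprim.inv)

/-! ### complementary dimension zero and one -/

lemma const_add {z : ℕ → ℤ} (h : ∀ n, z (n + 1) = z n) (n : ℕ) : z n = z 0 := by
  induction n with
  | zero => rfl
  | succ n ih => rw [h, ih]

/-- a periodic trajectory of a contracting one-dimensional system is constant -/
lemma const_of_one {s : Fin 1 → ℝ} (hs : |s 0| < 1) {z : ℕ → ℤ} {p : ℕ} (hp : 1 ≤ p)
    (hz : ∀ n, z (n + p) = z n) (hTr : Tr s z) : ∀ n, z (n + 1) = z n := by
  have h1 : ∀ n, 0 ≤ s 0 * z n + z (n + 1) ∧ s 0 * (z n : ℝ) + z (n + 1) < 1 := by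
    intro n
    have := hTr n
    simpa using this
  obtain ⟨hs1, hs2⟩ := abs_lt.1 hs
  rcases le_total (s 0) 0 with h0 | h0
  · -- monotone case
    have hmono : ∀ n, (z n ≤ z (n + 1) → z (n + 1) ≤ z (n + 2)) ∧
        (z (n + 1) ≤ z n → z (n + 2) ≤ z (n + 1)) := by
      intro n
      have ha := h1 n
      have hb := h1 (n + 1)
      constructor
      · intro hle
        have hle' : (z n : ℝ) ≤ z (n + 1) := by exact_mod_cast hle
        have h2 : s 0 * (z (n + 1) : ℝ) ≤ s 0 * z n := mul_le_mul_of_nonpos_left hle' h0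
        have h3 : (z (n + 1) : ℝ) < z (n + 2) + 1 := by linarith
        have h4 : z (n + 1) < z (n + 2) + 1 := by exact_mod_cast h3
        omega
      · intro hle
        have hle' : (z (n + 1) : ℝ) ≤ z n := by exact_mod_cast hle
        have h2 : s 0 * (z n : ℝ) ≤ s 0 * z (n + 1) := mul_le_mul_of_nonpos_left hle' h0
        have h3 : (z (n + 2) : ℝ) < z (n + 1) + 1 := by linarith
        have h4 : z (n + 2) < z (n + 1) + 1 := by exact_mod_cast h3
        omega
    intro n
    rcases le_total (z n) (z (n + 1)) with hle | hle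
    · have hall : ∀ i, z (n + i) ≤ z (n + i + 1) := by
        intro i
        induction i with
        | zero => exact hle
        | succ i ih => exact (hmono (n + i)).1 ih
      have hge : ∀ i, z (n + 1) ≤ z (n + 1 + i) := by
        intro i
        induction i with
        | zero => exact le_rfl
        | succ i ih =>
          refine ih.trans ?_
          have := hall (1 + i)
          rw [show n + (1 + i) = n + 1 + i by ring] at this
          exact this
      have h2 := hge (p - 1)
      rw [show n + 1 + (p - 1) = n + p by omega, hz] at h2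
      exact le_antisymm h2 hle
    · have hall : ∀ i, z (n + i + 1) ≤ z (n + i) := by
        intro i
        induction i with
        | zero => exact hle
        | succ i ih => exact (hmono (n + i)).2 ih
      have hge : ∀ i, z (n + 1 + i) ≤ z (n + 1) := by
        intro i
        induction i with
        | zero => exact le_rfl
        | succ i ih =>
          refine le_trans ?_ ih
          have := hall (1 + i)
          rw [show n + (1 + i) = n + 1 + i by ring] at this
          exact this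
      have h2 := hge (p - 1)
      rw [show n + 1 + (p - 1) = n + p by omega, hz] at h2
      exact le_antisymm hle h2
  · -- antitone case: the second iterate is monotone
    have hmono : ∀ n, (z n ≤ z (n + 2) → z (n + 2) ≤ z (n + 4)) ∧
        (z (n + 2) ≤ z n → z (n + 4) ≤ z (n + 2)) := by
      have hanti : ∀ a b, z a ≤ z b → z (b + 1) ≤ z (a + 1) := by
        intro a b hle
        have hle' : (z a : ℝ) ≤ z b := by exact_mod_cast hle
        have h2 : s 0 * (z a : ℝ) ≤ s 0 * z b := mul_le_mul_of_nonneg_left hle' h0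
        have ha := h1 a
        have hb := h1 b
        have h3 : (z (b + 1) : ℝ) < z (a + 1) + 1 := by linarith
        have h4 : z (b + 1) < z (a + 1) + 1 := by exact_mod_cast h3
        omega
      intro n
      constructor
      · intro hle
        exact hanti _ _ (hanti _ _ hle)
      · intro hle
        exact hanti _ _ (hanti _ _ hle)
    have h2per : ∀ n, z (n + 2) = z n := by
      intro n
      rcases le_total (z n) (z (n + 2)) with hle | hle
      · have hall : ∀ i, z (n + 2 * i) ≤ z (n + 2 * i + 2) := by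
          intro i
          induction i with
          | zero => exact hle
          | succ i ih => exact (hmono (n + 2 * i)).1 ih
        have hge : ∀ i, z (n + 2) ≤ z (n + 2 + 2 * i) := by
          intro i
          induction i with
          | zero => exact le_rfl
          | succ i ih =>
            refine ih.trans ?_
            have := hall (1 + i)
            rw [show n + 2 * (1 + i) = n + 2 + 2 * i by ring] at this
            exact this
        have h2 := hge (p - 1)
        have h3 : z (n + 2 + 2 * (p - 1)) = z n := by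
          rw [show n + 2 + 2 * (p - 1) = n + 2 * p by omega]
          exact per_mul hz 2 n
        rw [h3] at h2
        exact le_antisymm h2 hle
      · have hall : ∀ i, z (n + 2 * i + 2) ≤ z (n + 2 * i) := by
          intro i
          induction i with
          | zero => exact hle
          | succ i ih => exact (hmono (n + 2 * i)).2 ih
        have hge : ∀ i, z (n + 2 + 2 * i) ≤ z (n + 2) := by
          intro i
          induction i with
          | zero => exact le_rfl
          | succ i ih =>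
            refine le_trans ?_ ih
            have := hall (1 + i)
            rw [show n + 2 * (1 + i) = n + 2 + 2 * i by ring] at this
            exact this
        have h2 := hge (p - 1)
        have h3 : z (n + 2 + 2 * (p - 1)) = z n := by
          rw [show n + 2 + 2 * (p - 1) = n + 2 * p by omega]
          exact per_mul hz 2 n
        rw [h3] at h2
        exact le_antisymm hle h2
    intro n
    have ha := h1 n
    have hb := h1 (n + 1)
    rw [h2per n] at hb
    -- the sum is 0 or 1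
    have hsum1 : (0 : ℝ) ≤ (1 + s 0) * (z n + z (n + 1)) := by nlinarith
    have hsum2 : (1 + s 0) * ((z n : ℝ) + z (n + 1)) < 2 := by nlinarith
    have h3 : (0 : ℝ) ≤ z n + z (n + 1) := by
      by_contra hcon
      push Not at hcon
      nlinarith
    have h4 : (z n : ℝ) + z (n + 1) < 2 := by
      by_contra hcon
      push Not at hcon
      nlinarith
    have h3' : 0 ≤ z n + z (n + 1) := by exact_mod_cast h3
    have h4' : z n + z (n + 1) < 2 := by exact_mod_cast h4
    have h5 : z n + z (n + 1) = 0 ∨ z n + z (n + 1) = 1 := by omega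
    rcases h5 with h5 | h5
    · have h6 : (z (n + 1) : ℝ) = -z n := by
        have : (z n : ℝ) + z (n + 1) = 0 := by exact_mod_cast h5
        linarith
      rw [h6] at ha hb
      have h7 : (1 - s 0) * (z n : ℝ) = 0 := by nlinarith
      have h8 : (z n : ℝ) = 0 := (mul_eq_zero.1 h7).resolve_left (by linarith)
      have h9 : z n = 0 := by exact_mod_cast h8
      omega
    · exfalso
      have h6 : (z (n + 1) : ℝ) = 1 - z n := by
        have : (z n : ℝ) + z (n + 1) = 1 := by exact_mod_cast h5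
        linarith
      rw [h6] at ha hb
      have h7 : (0 : ℝ) < z n := by
        by_contra hcon
        push Not at hcon
        nlinarith
      have h8 : (z n : ℝ) < 1 := by
        by_contra hcon
        push Not at hcon
        nlinarith
      have h7' : 0 < z n := by exact_mod_cast h7
      have h8' : z n < 1 := by exact_mod_cast h8
      omega

lemma E_one {s : Fin 1 → ℝ} (hs : s ∈ E 1) : |s 0| < 1 := by
  have h1 := hs (-(s 0 : ℂ)) (by
    rw [aeval_charPoly]
    simp)
  rw [norm_neg, Complex.norm_real] at h1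
  exact h1

lemma D_one {s : Fin 1 → ℝ} (hs : |s 0| < 1) : s ∈ D 1 := by
  intro z
  by_contra hcon
  obtain ⟨y, hy, rfl⟩ := exists_Tr one_pos s z
  have h1 : ∀ n, 0 ≤ s 0 * y n + y (n + 1) ∧ s 0 * (y n : ℝ) + y (n + 1) < 1 := by
    intro n
    have := hy n
    simpa using this
  set A : ℝ := max |(y 0 : ℝ)| (1 / (1 - |s 0|)) with hA
  have hpos : 0 < 1 - |s 0| := by linarith
  have hA1 : |s 0| * A + 1 ≤ A := by
    have h2 : 1 / (1 - |s 0|) ≤ A := le_max_right _ _
    rw [div_le_iff₀ hpos] at h2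
    linarith
  have hb : ∀ n, |(y n : ℝ)| ≤ A := by
    intro n
    induction n with
    | zero => exact le_max_left _ _
    | succ n ih =>
      obtain ⟨h2, h3⟩ := h1 n
      have h4 : |s 0 * (y n : ℝ)| ≤ |s 0| * A := by
        rw [abs_mul]
        exact mul_le_mul_of_nonneg_left ih (abs_nonneg _)
      obtain ⟨h5, h6⟩ := abs_le.1 h4
      rw [abs_le]
      constructor <;> linarith
  obtain ⟨n, i, hni⟩ := unbounded_of_not_ult hcon ⌈A⌉
  rw [tau_iter_Tr hy] at hni
  have h2 := hb (n + i)
  have h3 : ((⌈A⌉ : ℤ) : ℝ) < ((|y (n + i)| : ℤ) : ℝ) := by exact_mod_cast hni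
  rw [Int.cast_abs] at h3
  have h4 := Int.le_ceil A
  linarith

lemma F_const {p : ℕ} {ζ : ℂ} (hζ : ζ ^ p = 1) (hne : ζ ≠ 1) (c : ℤ) :
    F p ζ (fun _ => c) = 0 := by
  unfold F
  rw [← Finset.mul_sum]
  have h1 := geom_sum_mul ζ p
  rw [hζ, sub_self] at h1
  rw [(mul_eq_zero.1 h1).resolve_right (sub_ne_zero.2 hne), mul_zero]

theorem mem_D_zero {d N : ℕ} {r : Fin d → ℝ} {s : Fin 0 → ℝ} {Φ : ℤ[X]} (hN : 1 ≤ N)
    (hΦ : Φ.Monic) (hdvd : Φ ∣ X ^ N - 1)
    (h : charPoly r = Φ.map (Int.castRingHom ℝ) * charPoly s) : r ∈ D d := by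
  rw [mem_D_mul hN hΦ hdvd h]
  refine ⟨fun z => ⟨0, 1, le_rfl, Subsingleton.elim _ _⟩, ?_⟩
  intro z p hp hper hz η hη hr
  have h0 : z = fun _ => 0 := by
    funext n
    have h1 := hz n
    simp only [Finset.univ_eq_empty, Finset.sum_empty, zero_add, add_zero] at h1
    have h2 : (0 : ℤ) ≤ z n := by exact_mod_cast h1.1
    have h3 : z n < (1 : ℤ) := by exact_mod_cast h1.2
    omega
  rw [h0]
  simp [F]

theorem mem_D_one {d N : ℕ} {r : Fin d → ℝ} {s : Fin 1 → ℝ} {Φ : ℤ[X]} (hN : 1 ≤ N)
    (hΦ : Φ.Monic) (hdvd : Φ ∣ X ^ N - 1) (hs : s ∈ E 1)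
    (h : charPoly r = Φ.map (Int.castRingHom ℝ) * charPoly s) :
    r ∈ D d ↔ Φ.eval 1 ≠ 0 ∨ 0 ≤ s 0 := by
  have hs1 := E_one hs
  obtain ⟨hs2, hs3⟩ := abs_lt.1 hs1
  have hev : aeval (1 : ℂ) Φ = ((Φ.eval 1 : ℤ) : ℂ) := by
    rw [aeval_def, eval₂_at_one]
    rfl
  rw [mem_D_mul hN hΦ hdvd h]
  constructor
  · rintro ⟨_, H⟩
    by_contra hcon
    push Not at hcon
    have h1 := H (fun _ => 1) 1 le_rfl (fun _ => rfl) (by
      intro n
      simp
      constructor <;> linarith) 1 (one_pow 1) (by rw [hev, hcon.1]; simp)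
    simp [F] at h1
  · intro H
    refine ⟨D_one hs1, ?_⟩
    intro z p hp hper hz η hη hr
    have hc := const_add (const_of_one hs1 hp hper hz)
    have h0 : z = fun _ => z 0 := funext hc
    by_cases hη1 : η = 1
    · subst hη1
      rw [hev] at hr
      have hr' : Φ.eval 1 = 0 := by exact_mod_cast hr
      have hs0 : 0 ≤ s 0 := H.resolve_left (fun hne => hne hr')
      have h1 := hz 0
      have h2 : 0 ≤ s 0 * (z 0 : ℝ) + z 0 ∧ s 0 * (z 0 : ℝ) + z 0 < 1 := by
        have h3 : z (0 + 1) = z 0 := hc 1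
        simpa [h3] using h1
      have h3 : (0 : ℝ) ≤ z 0 := by
        by_contra hcon
        push Not at hcon
        nlinarith
      have h4 : (z 0 : ℝ) < 1 := by
        by_contra hcon
        push Not at hcon
        nlinarith
      have h3' : 0 ≤ z 0 := by exact_mod_cast h3
      have h4' : z 0 < 1 := by exact_mod_cast h4
      have h5 : z 0 = 0 := by omega
      rw [h0, h5]
      simp [F]
    · rw [h0]
      exact F_const (by rw [inv_pow, hη, inv_one]) (by
        intro hcon
        exact hη1 (by rw [← inv_inv η, hcon, inv_one])) _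

end Pool.Agent.Y379.SR
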