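import Mathlib
import Pool.Agent.Y379.SR.Gen

set_option autoImplicit false

open Polynomial

namespace Pool.Agent.Y379.SR

open Pool.Agent.Results.MP_e7d72a_nt.Resonance

lemma sum_lt_mem_E {k : ℕ} {s : Fin k → ℝ} (h : ∑ j, |s j| < 1) : s ∈ E k := by
  intro μ hμ
  by_contra hcon
  push Not at hcon
  rw [aeval_charPoly] at hμ
  have hpos : 0 < ‖μ‖ ^ k := pow_pos (by linarith) _
  have h1 : ‖μ‖ ^ k = ‖∑ j : Fin k, (s j : ℂ) * μ ^ (j : ℕ)‖ := by
    rw [← norm_pow, eq_neg_of_add_eq_zero_left hμ, norm_neg]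
  have h2 : ‖∑ j : Fin k, (s j : ℂ) * μ ^ (j : ℕ)‖ ≤ ∑ j : Fin k, |s j| * ‖μ‖ ^ k := by
    refine (norm_sum_le _ _).trans (Finset.sum_le_sum fun j _ => ?_)
    rw [norm_mul, norm_pow, Complex.norm_real, Real.norm_eq_abs]
    exact mul_le_mul_of_nonneg_left (pow_le_pow_right₀ hcon j.2.le) (abs_nonneg _)
  rw [← Finset.sum_mul] at h2
  nlinarith

lemma abs_sum_le {k : ℕ} {s : Fin k → ℝ} {x : Fin k → ℝ} {A : ℝ} (hx : ∀ j, |x j| ≤ A) :
    |∑ j, s j * x j| ≤ (∑ j, |s j|) * A := by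
  rw [Finset.sum_mul]
  refine (Finset.abs_sum_le_sum_abs _ _).trans (Finset.sum_le_sum fun j _ => ?_)
  rw [abs_mul]
  exact mul_le_mul_of_nonneg_left (hx j) (abs_nonneg _)

lemma sum_lt_mem_D {k : ℕ} {s : Fin k → ℝ} (h : ∑ j, |s j| < 1) : s ∈ D k := by
  rcases Nat.eq_zero_or_pos k with hk | hk
  · subst hk
    exact fun z => ⟨0, 1, le_rfl, Subsingleton.elim _ _⟩
  intro z
  by_contra hcon
  obtain ⟨y, hy, rfl⟩ := exists_Tr hk s z
  set T := ∑ j, |s j| with hT
  set A : ℝ := max (∑ j : Fin k, |(y j : ℝ)|) (1 / (1 - T)) with hA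
  have hpos : 0 < 1 - T := by linarith
  have hA1 : T * A + 1 ≤ A := by
    have h2 : 1 / (1 - T) ≤ A := le_max_right _ _
    rw [div_le_iff₀ hpos] at h2
    linarith
  have hb : ∀ n, |(y n : ℝ)| ≤ A := by
    intro n
    induction n using Nat.strong_induction_on with
    | _ n ih =>
      rcases Nat.lt_or_ge n k with hn | hn
      · refine le_trans ?_ (le_max_left _ _)
        exact Finset.single_le_sum (f := fun j : Fin k => |(y j : ℝ)|)
          (fun _ _ => abs_nonneg _) (Finset.mem_univ (⟨n, hn⟩ : Fin k))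
      · obtain ⟨h2, h3⟩ := hy (n - k)
        rw [show n - k + k = n by omega] at h2 h3
        have h4 : |∑ j : Fin k, s j * (y (n - k + j) : ℝ)| ≤ T * A :=
          abs_sum_le fun j => ih (n - k + j) (by
            have := j.2
            omega)
        obtain ⟨h5, h6⟩ := abs_le.1 h4
        rw [abs_le]
        constructor <;> linarith
  obtain ⟨n, i, hni⟩ := unbounded_of_not_ult hcon ⌈A⌉
  rw [tau_iter_Tr hy] at hni
  have h2 := hb (n + i)
  have h3 : ((⌈A⌉ : ℤ) : ℝ) < ((|y (n + i)| : ℤ) : ℝ) := by exact_mod_cast hni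
  rw [Int.cast_abs] at h3
  have h4 := Int.le_ceil A
  linarith

/-- nonnegative parameters with sum less than one have no nonzero periodic trajectories -/
lemma zero_of_sum {k : ℕ} {s : Fin k → ℝ} (h0 : ∀ j, 0 ≤ s j) (h : ∑ j, s j < 1) {z : ℕ → ℤ}
    {p : ℕ} (hp : 1 ≤ p) (hz : ∀ n, z (n + p) = z n) (hTr : Tr s z) : ∀ n, z n = 0 := by
  have hback : ∀ n, ∃ n', z n = z (n' + k) := by
    intro n
    refine ⟨n + k * p - k, ?_⟩
    have h1 : k ≤ k * p := Nat.le_mul_of_pos_right k hp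
    rw [show n + k * p - k + k = n + k * p by omega]
    exact (per_mul hz k n).symm
  have hS0 : 0 ≤ ∑ j, s j := Finset.sum_nonneg fun j _ => h0 j
  -- one step of the descent
  have step1 : ∀ b : ℕ, (∀ n, z n ≤ b) → ∀ n, -(((b - 1 : ℕ) : ℤ)) ≤ z n := by
    intro b hb n
    obtain ⟨n', hn'⟩ := hback n
    rw [hn']
    obtain ⟨h1, _⟩ := hTr n'
    have h2 : ∑ j : Fin k, s j * (z (n' + j) : ℝ) ≤ (∑ j, s j) * b := by
      rw [Finset.sum_mul]
      refine Finset.sum_le_sum fun j _ => ?_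
      refine mul_le_mul_of_nonneg_left ?_ (h0 j)
      exact_mod_cast hb (n' + j)
    rcases Nat.eq_zero_or_pos b with hb0 | hb0
    · subst hb0
      simp only [Nat.cast_zero, mul_zero] at h2
      have h3 : (0 : ℝ) ≤ z (n' + k) := by linarith
      have h4 : 0 ≤ z (n' + k) := by exact_mod_cast h3
      simpa using h4
    · have hb' : (1 : ℝ) ≤ b := by exact_mod_cast hb0
      have h3 : -(b : ℝ) < z (n' + k) := by nlinarith
      have h4 : -(b : ℤ) < z (n' + k) := by exact_mod_cast h3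
      omega
  have step2 : ∀ a : ℕ, (∀ n, -(a : ℤ) ≤ z n) → ∀ n, z n ≤ a := by
    intro a ha n
    obtain ⟨n', hn'⟩ := hback n
    rw [hn']
    obtain ⟨_, h1⟩ := hTr n'
    have h2 : -((∑ j, s j) * a) ≤ ∑ j : Fin k, s j * (z (n' + j) : ℝ) := by
      rw [Finset.sum_mul, ← Finset.sum_neg_distrib]
      refine Finset.sum_le_sum fun j _ => ?_
      rw [← mul_neg]
      refine mul_le_mul_of_nonneg_left ?_ (h0 j)
      exact_mod_cast ha (n' + j)
    have ha0 : (0 : ℝ) ≤ a := by positivity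
    have h3 : (z (n' + k) : ℝ) < a + 1 := by nlinarith
    have h4 : z (n' + k) < a + 1 := by exact_mod_cast h3
    omega
  have descent : ∀ b : ℕ, (∀ n, z n ≤ b) → ∀ n, z n = 0 := by
    intro b
    induction b with
    | zero =>
      intro hb n
      have h1 := step1 0 hb n
      have h2 := hb n
      simp at h1 h2
      omega
    | succ b ih =>
      intro hb
      apply ih
      have h1 := step1 (b + 1) hb
      simp only [Nat.add_sub_cancel] at h1
      exact step2 b h1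
  apply descent (∑ i ∈ Finset.range p, (z i).natAbs)
  intro n
  have h1 : z n = z (n % p) := by
    have h2 := per_mul hz (n / p) (n % p)
    rw [mul_comm (n / p), Nat.mod_add_div] at h2
    exact h2
  rw [h1]
  have h2 : (z (n % p)).natAbs ≤ ∑ i ∈ Finset.range p, (z i).natAbs :=
    Finset.single_le_sum (f := fun i => (z i).natAbs) (fun _ _ => Nat.zero_le _)
      (Finset.mem_range.2 (Nat.mod_lt _ hp))
  have h3 : z (n % p) ≤ ((z (n % p)).natAbs : ℤ) := by
    rw [Int.natCast_natAbs]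
    exact le_abs_self _
  exact h3.trans (by exact_mod_cast h2)

theorem mem_D_good {d k N : ℕ} {r : Fin d → ℝ} {s : Fin k → ℝ} {Φ : ℤ[X]} (hN : 1 ≤ N)
    (hΦ : Φ.Monic) (hdvd : Φ ∣ X ^ N - 1) (h0 : ∀ j, 0 ≤ s j) (hs : ∑ j, s j < 1)
    (h : charPoly r = Φ.map (Int.castRingHom ℝ) * charPoly s) : r ∈ D d := by
  have hs' : ∑ j, |s j| < 1 := by
    rw [Finset.sum_congr rfl fun j _ => abs_of_nonneg (h0 j)]
    exact hs
  rw [mem_D_mul hN hΦ hdvd h]
  refine ⟨sum_lt_mem_D hs', ?_⟩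
  intro z p hp hper hz η hη hr
  have h1 : z = fun _ => 0 := funext (zero_of_sum h0 hs hp hper hz)
  rw [h1]
  simp [F]

/-! ### the multiplication map -/

/-- the coefficients of the product -/
noncomputable def mulMap (Φ : ℤ[X]) (k d : ℕ) (s : Fin k → ℝ) : Fin d → ℝ :=
  fun j => (Φ.map (Int.castRingHom ℝ) * charPoly s).coeff j

lemma coeff_charPoly {k : ℕ} (s : Fin k → ℝ) (n : ℕ) :
    (charPoly s).coeff n = (if n = k then 1 else 0) + ∑ j : Fin k, if n = j then s j else 0 := by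
  unfold charPoly
  rw [coeff_add, coeff_X_pow, finsetSum_coeff]
  congr 1
  refine Finset.sum_congr rfl fun j _ => ?_
  rw [coeff_C_mul_X_pow]

lemma continuous_mulMap (Φ : ℤ[X]) (k d : ℕ) : Continuous (mulMap Φ k d) := by
  refine continuous_pi fun j => ?_
  unfold mulMap
  simp only [coeff_mul, coeff_charPoly]
  refine continuous_finsetSum _ fun x _ => ?_
  refine continuous_const.mul (continuous_const.add (continuous_finsetSum _ fun i _ => ?_))
  split_ifs
  · exact continuous_apply i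
  · exact continuous_const

lemma mulMap_eq {Φ : ℤ[X]} {k d : ℕ} {s : Fin k → ℝ} {r : Fin d → ℝ}
    (h : charPoly r = Φ.map (Int.castRingHom ℝ) * charPoly s) : mulMap Φ k d s = r := by
  funext j
  unfold mulMap
  rw [← h, coeff_charPoly, if_neg (by
    have := j.2
    omega), zero_add, Finset.sum_eq_single j]
  · simp
  · intro i _ hij
    rw [if_neg]
    intro hcon
    exact hij (Fin.ext hcon.symm)
  · intro hcon
    exact absurd (Finset.mem_univ _) hcon

theorem mem_EC_closure {d k N : ℕ} {r : Fin d → ℝ} {s : Fin k → ℝ} {Φ : ℤ[X]} (hN : 1 ≤ N)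
    (hΦ : Φ.Monic) (hdvd : Φ ∣ X ^ N - 1)
    (h : charPoly r = Φ.map (Int.castRingHom ℝ) * charPoly s)
    (hs : s ∈ closure (E k)) (him : ∃ η : ℂ, η.im ≠ 0 ∧ aeval η Φ = 0) : r ∈ EC d := by
  have hd := dim_eq hΦ h
  subst hd
  refine ⟨?_, ?_⟩
  · have h1 : Set.MapsTo (mulMap Φ k (Φ.natDegree + k)) (E k) (closure (E (Φ.natDegree + k))) := by
      intro t ht
      obtain ⟨q, hq⟩ := exists_param t hΦ
      rw [mulMap_eq hq]
      exact (mem_EC_gen hN hdvd hq ht him).1
    have h2 := map_mem_closure (continuous_mulMap Φ k (Φ.natDegree + k)) hs h1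
    rw [closure_closure, mulMap_eq h] at h2
    exact h2
  · obtain ⟨η, him, hr⟩ := him
    exact ⟨η, him, root_norm hN hdvd hr, by rw [h, map_mul, aeval_map_R, hr, zero_mul]⟩

end Pool.Agent.Y379.SR
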